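import Mathlib
import Pool.Agent.N176.OW.M4
import Pool.Agent.N136.OW.SVStm

set_option autoImplicit false

/-!
# Real bases: statements of the steps

`α > 1` is a real base, `g : ℕ → ℝ` a bounded sequence.  The integer of level `p` of `β` is
`⌊β α ^ p + g p⌋`; it is computed (up to a small probability) from the integer `⌊β α ^ t⌋` of a higher
level `t` by `lv`.  Everything but the bound `S_K` for `k` exponents holds in all bases; `S_K` is proved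
in the golden base.
-/

namespace Pool.Agent.N176.GW

open Finset Filter Topology MeasureTheory
open Pool.Agent.H305R2 (roughPart ff)
open Pool.Agent.N176.OW (VT)

/-- the constant of the law -/
noncomputable def kr (α : ℝ) : ℝ := Real.exp Real.eulerMascheroniConstant / Real.log α

/-- the integer of level `p` of the integer `m` of level `t` -/
noncomputable def lv (α : ℝ) (g : ℕ → ℝ) (t p m : ℕ) : ℕ := ⌊(m : ℝ) / α ^ (t - p) + g p⌋₊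

/-- the integers of level `t` whose intervals meet the interval of the integer `j` of level `z` -/
noncomputable def cell (α : ℝ) (z t j : ℕ) : Finset ℕ :=
  Ico ⌊(j : ℝ) * α ^ (t - z)⌋₊ ⌈((j : ℝ) + 1) * α ^ (t - z)⌉₊

/-- the exponents in `T` of the integer `m` of level `t` -/
noncomputable def hits (α : ℝ) (g : ℕ → ℝ) (T : Finset ℕ) (t m : ℕ) : Finset ℕ :=
  T.filter (fun p => (roughPart p (lv α g t p m)).Prime)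

/-- some exponent in `T` of `m` has a large smooth part -/
def Big (α : ℝ) (g : ℕ → ℝ) (T : Finset ℕ) (t x m : ℕ) : Prop :=
  ∃ p ∈ T, (roughPart p (lv α g t p m)).Prime ∧ Real.exp (x * Real.log α / 8) ≤
    ((lv α g t p m / roughPart p (lv α g t p m) : ℕ) : ℝ)

/-- the linear form of the golden base -/
noncomputable def gf (h N : ℕ) : ℤ :=
  (Nat.fib (h + 1) : ℤ) * N + (Nat.fib h : ℤ) * ⌊(N : ℝ) / Real.goldenRatio⌋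

/-- TASK LIN: `N ↦ ⌊N / φ⌋` is linear along steps of length `F_m`, with few exceptions. -/
def S_LIN : Prop := ∀ m A U : ℕ, 2 ≤ m →
  (((range (Nat.fib m)).filter (fun i => ∃ u < U,
    ⌊((A + i + Nat.fib m * u : ℕ) : ℝ) / Real.goldenRatio⌋ ≠
      ⌊((A + i : ℕ) : ℝ) / Real.goldenRatio⌋ + ((Nat.fib (m - 1) * u : ℕ) : ℤ))).card : ℝ) ≤ 3 * U + 2

open Classical in
/-- TASK LF: upper bound sieve for `k` linear forms in one variable. -/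
def S_LF : Prop := ∀ B c : ℝ, 0 < c → ∃ C : ℝ, 1 ≤ C ∧ ∃ P : ℕ, ∀ x ≥ P, ∀ F : Finset ℕ,
  F.Nonempty → (F.card : ℝ) ^ 2 ≤ Real.log x → ∀ a s : ℕ → ℤ,
  (∀ p ∈ F, s p ≠ 0 ∧ ((|a p| : ℤ) : ℝ) ≤ Real.exp (B * x) ∧ ((|s p| : ℤ) : ℝ) ≤ Real.exp (B * x)) →
  (∀ p ∈ F, ∀ q ∈ F, p < q → a p * s q ≠ a q * s p) → ∀ U : ℕ, c * x ≤ Real.log U →
  (((range U).filter (fun u : ℕ => ∀ p ∈ F, ∀ l : ℕ, l.Prime → 2 * x < l → l ≤ U →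
    ¬ (l : ℤ) ∣ a p + s p * u)).card : ℝ) ≤ (C * F.card * (Real.log x / x)) ^ F.card * U

/-- TASK TUG: the sieve bound for `k` exponents and fixed offsets in the golden base. -/
def S_TUG : Prop := ∀ K : ℝ, ∃ C : ℝ, 1 ≤ C ∧ ∃ P : ℕ, ∀ x ≥ P, ∀ F : Finset ℕ,
  (∀ p ∈ F, x < p ∧ p ≤ 2 * x) → (F.card : ℝ) ^ 2 ≤ Real.log x → ∀ p1 ∈ F, (∀ p ∈ F, p1 ≤ p) →
  ∀ e : ℕ → ℤ, (∀ p ∈ F, ((|e p| : ℤ) : ℝ) ≤ K * Real.goldenRatio ^ (p - p1)) →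
  ∀ A H : ℕ, Real.goldenRatio ^ (x / 2) ≤ (A : ℝ) → Real.goldenRatio ^ (x / 2) ≤ (H : ℝ) →
  ((A + H : ℕ) : ℝ) ≤ Real.goldenRatio ^ (4 * x) →
  (((Ico A (A + H)).filter (fun N => ∀ p ∈ F,
    (roughPart p (gf (p - p1) N + e p).toNat).Prime ∧
    (((gf (p - p1) N + e p).toNat / roughPart p (gf (p - p1) N + e p).toNat : ℕ) : ℝ) <
      Real.exp (x * Real.log Real.goldenRatio / 8))).card : ℝ) ≤
    (C * F.card * (Real.log x / x)) ^ F.card * H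

open Classical in
/-- TASK K: the bound for `k` exponents, given the first digits. -/
def S_K (α : ℝ) (g : ℕ → ℝ) : Prop := ∃ C : ℝ, 1 ≤ C ∧ ∃ P : ℕ, ∀ x ≥ P, ∀ F : Finset ℕ,
  F.Nonempty → (∀ p ∈ F, x < p ∧ p ≤ 2 * x) → (F.card : ℝ) ^ 2 ≤ Real.log x →
  ∀ z : ℕ, 64 * z ≤ x → ∀ t : ℕ, 4 * x ≤ t → ∀ j : ℕ, 1 ≤ j → (j : ℝ) ≤ α ^ (2 * z) →
  (((cell α z t j).filter (fun m => ¬ Big α g F t x m ∧ F ⊆ hits α g F t m)).card : ℝ) ≤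
    (C * F.card * (Real.log x / x)) ^ F.card * α ^ (t - z)

open Classical in
/-- TASK RB: large smooth parts are rare. -/
def S_RB (α : ℝ) (g : ℕ → ℝ) : Prop := ∃ d : ℝ, 0 < d ∧ ∃ P : ℕ, ∀ x ≥ P, ∀ T : Finset ℕ,
  (∀ p ∈ T, x < p ∧ p ≤ 2 * x) → ∀ z : ℕ, 64 * z ≤ x → ∀ t : ℕ, 4 * x ≤ t → ∀ j : ℕ, 1 ≤ j →
  (j : ℝ) ≤ α ^ (2 * z) → (((cell α z t j).filter (fun m => Big α g T t x m)).card : ℝ) ≤
    Real.exp (-(d * x)) * α ^ (t - z)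

open Classical in
/-- TASK EX: the exponential moment of the number of exponents in a block, given the first digits. -/
def S_EX (α : ℝ) (g : ℕ → ℝ) : Prop := ∃ s1 C d : ℝ, 0 < s1 ∧ s1 ≤ 1 / 2 ∧ 0 < C ∧ 0 < d ∧ ∃ P : ℕ,
  ∀ x ≥ P, ∀ T : Finset ℕ, (∀ p ∈ T, p.Prime ∧ x < p ∧ p ≤ 2 * x) → ∀ z : ℕ, 64 * z ≤ x →
  ∀ t : ℕ, 4 * x ≤ t → ∀ j : ℕ, 1 ≤ j → (j : ℝ) ≤ α ^ (2 * z) →
  ∑ n ∈ (cell α z t j).filter (fun n => ((hits α g T t n).card : ℝ) ≤ √(Real.log x)),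
    ((1 + s1) ^ (hits α g T t n).card - 1) ≤ C * VT T * α ^ (t - z) ∧
  (((cell α z t j).filter (fun n => √(Real.log x) < ((hits α g T t n).card : ℝ))).card : ℝ) ≤
    Real.exp (-(d * √(Real.log x))) * α ^ (t - z)

open Classical in
/-- TASK SM: the second moment. -/
def S_SM (α : ℝ) (g : ℕ → ℝ) : Prop := ∃ D : ℝ, 0 < D ∧ ∃ P : ℕ,
  ∀ x ≥ P, ∀ T : Finset ℕ, (∀ p ∈ T, p.Prime ∧ x < p ∧ p ≤ 2 * x) → ∀ z : ℕ, 64 * z ≤ x →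
  ∀ t : ℕ, 4 * x ≤ t → ∀ j : ℕ, 1 ≤ j → (j : ℝ) ≤ α ^ (2 * z) →
  ∑ n ∈ cell α z t j, ((hits α g T t n).card : ℝ) ^ 2 ≤ D * VT T * α ^ (t - z)

/-- the mean over the cell of the number of exponents in `T` -/
noncomputable def mT (α : ℝ) (g : ℕ → ℝ) (z t : ℕ) (T : Finset ℕ) (j : ℕ) : ℝ :=
  (∑ n ∈ cell α z t j, ((hits α g T t n).card : ℝ)) / α ^ (t - z)

open Classical in
/-- TASK BL: Laplace transform of the number of exponents in a block, given the first digits. -/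
def S_BL (α : ℝ) (g : ℕ → ℝ) : Prop := ∃ s1 C : ℝ, 0 < s1 ∧ s1 ≤ 1 / 2 ∧ 0 < C ∧ ∃ P : ℕ,
  ∀ x ≥ P, ∀ T : Finset ℕ, (∀ p ∈ T, p.Prime ∧ x < p ∧ p ≤ 2 * x) → ∀ z : ℕ, 64 * z ≤ x →
  ∀ t : ℕ, 4 * x ≤ t → ∀ j : ℕ, 1 ≤ j → (j : ℝ) ≤ α ^ (2 * z) → ∀ δ : ℝ, 0 ≤ δ →
  |mT α g z t T j - kr α * VT T| ≤ δ → ∀ s : ℝ, |s| ≤ s1 →
  ∑ n ∈ (cell α z t j).filter (fun n => ((hits α g T t n).card : ℝ) ≤ √(Real.log x)),
    (1 + s) ^ (hits α g T t n).card ≤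
    Real.exp (s * (kr α * VT T) + |s| * δ + C * s ^ 2 * VT T + 1 / x) * α ^ (t - z)

/-- TASK FM: the mean over the cells of level `z ≤ κ0 q`. -/
def S_FM (α : ℝ) : Prop := ∃ κ0 K : ℝ, 0 < κ0 ∧ 0 < K ∧ ∀ m0 : ℕ, ∃ P : ℕ, ∀ q ≥ P,
  ∀ z : ℕ, m0 ≤ z → (z : ℝ) ≤ κ0 * q →
    ∑ j ∈ Ico ⌊α ^ (z - m0)⌋₊ ⌈α ^ (z + m0)⌉₊,
      max 0 (|(∫ u in (Real.log (j * α ^ (q - z)))..(Real.log (((j : ℝ) + 1) * α ^ (q - z))),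
        Real.exp u * ff q u) / α ^ (q - z) - kr α * (Real.log q / q)| - K / q) ≤
    α ^ z * ((Real.log q) ^ 2 / q ^ 2)

/-- TASK CL: counting in cells and integrals. -/
def S_CL (α : ℝ) (g : ℕ → ℝ) : Prop := ∃ P : ℕ, ∀ x ≥ P, ∀ p : ℕ, x < p → p ≤ 2 * x →
  ∀ z : ℕ, 64 * z ≤ x → ∀ t : ℕ, 4 * x ≤ t → ∀ j : ℕ, 1 ≤ j →
  |(((cell α z t j).filter (fun n => (roughPart p (lv α g t p n)).Prime)).card : ℝ) / α ^ (t - z) -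
    (∫ u in (Real.log (j * α ^ (p - z)))..(Real.log (((j : ℝ) + 1) * α ^ (p - z))),
        Real.exp u * ff p u) / α ^ (p - z)| ≤ 1 / (x : ℝ) ^ 2

open Classical in
/-- TASK GC: most cells are good. -/
def S_GC (α : ℝ) (g : ℕ → ℝ) : Prop := ∃ k1 : ℕ, 8 ≤ k1 ∧ ∃ K : ℝ, 0 < K ∧ ∀ m0 : ℕ, ∃ P : ℕ,
  ∀ i ≥ P, ∀ T : Finset ℕ, (∀ p ∈ T, p.Prime ∧ 2 ^ i < p ∧ p ≤ 2 ^ (i + 1)) →
  (((Ico ⌊α ^ (2 ^ (i + 2 - k1) - m0)⌋₊ ⌈α ^ (2 ^ (i + 2 - k1) + m0)⌉₊).filter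
    (fun m => 1 / (i : ℝ) ^ 2 + K * VT T / i <
      |mT α g (2 ^ (i + 2 - k1)) (2 ^ (i + 2)) T m - kr α * VT T|)).card : ℝ) ≤
    α ^ (2 ^ (i + 2 - k1)) / (i : ℝ) ^ 2

/-- TASK ITM: maximal inequality for the products of the conditional weights. -/
def S_ITM (α : ℝ) : Prop := ∀ (τ : ℕ → ℕ) (w : ℕ → ℕ → ℕ → ℝ) (E : ℕ → ℝ), Monotone τ →
  (∀ l m n, 0 ≤ w l m n) → (∀ l, 0 < E l) →
  (∀ l m : ℕ, 1 ≤ m → (m : ℝ) ≤ α ^ (2 * τ l) →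
    ∑ n ∈ cell α (τ l) (τ (l + 1)) m, w l m n ≤ E l * α ^ (τ (l + 1) - τ l)) →
  ∀ k j : ℕ, 1 ≤ j → ∀ lam : ℝ, 0 < lam →
    volume {β : ℝ | 0 < β ∧ β ≤ α ^ (τ 0) ∧ ⌊β * α ^ (τ 0)⌋₊ = j ∧ ∃ i ≤ k,
      lam * ∏ l ∈ range i, E l ≤ ∏ l ∈ range i, w l ⌊β * α ^ (τ l)⌋₊ ⌊β * α ^ (τ (l + 1))⌋₊} ≤
    ENNReal.ofReal ((α ^ (τ 0))⁻¹ / lam)

/-- TASK AGR: the integers of the lower levels are computed from those of the higher levels. -/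
def S_AGR (α : ℝ) (g : ℕ → ℝ) : Prop := ∀ᵐ β : ℝ, 0 < β → ∀ᶠ i : ℕ in atTop,
  ∀ p ∈ Ioc (2 ^ i) (2 ^ (i + 1)),
    ⌊β * α ^ p + g p⌋₊ = lv α g (2 ^ (i + 2)) p ⌊β * α ^ (2 ^ (i + 2))⌋₊

end Pool.Agent.N176.GW
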