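import Mathlib
import Pool.Agent.N176.GW.Stm
import Pool.Agent.N176.SH.BL

set_option autoImplicit false

/-!
# Real bases: Laplace transform of a block, given the first digits
-/

namespace Pool.Agent.N176.GW.BL

open Finset Filter Topology MeasureTheory
open Pool.Agent.H305R2 (roughPart)
open Pool.Agent.N176.OW (VT)
open Pool.Agent.N176.SH.BL (pow_up pow_down)
open Pool.Agent.N176.GW

lemma mean_cell {α : ℝ} (hα : 1 < α) {g : ℕ → ℝ} {T : Finset ℕ} {z j t : ℕ} :
    ∑ n ∈ cell α z t j, ((hits α g T t n).card : ℝ) = mT α g z t T j * α ^ (t - z) := by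
  unfold mT
  have : α ^ (t - z) ≠ 0 := by positivity
  field_simp

lemma card_cell {α : ℝ} (hα : 1 < α) (z t j : ℕ) :
    ((cell α z t j).card : ℝ) ≤ α ^ (t - z) + 2 := by
  unfold cell
  rw [Nat.card_Ico]
  have hA : 0 ≤ (j : ℝ) * α ^ (t - z) := by positivity
  have hB : 0 ≤ ((j : ℝ) + 1) * α ^ (t - z) := by positivity
  have h1 := Nat.lt_floor_add_one ((j : ℝ) * α ^ (t - z))
  have h2 := Nat.ceil_lt_add_one hB
  have h3 : ⌊(j : ℝ) * α ^ (t - z)⌋₊ ≤ ⌈((j : ℝ) + 1) * α ^ (t - z)⌉₊ := by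
    refine (Nat.floor_le_ceil _).trans (Nat.ceil_mono ?_)
    have : 0 ≤ α ^ (t - z) := by positivity
    nlinarith
  rw [Nat.cast_sub h3]
  linarith [add_mul (j : ℝ) 1 (α ^ (t - z))]

theorem bl {α : ℝ} (hα : 1 < α) {g : ℕ → ℝ} (h : S_EX α g) (hsm : S_SM α g) : S_BL α g := by
  classical
  obtain ⟨s1, C, c, hs1, hs12, hC, hc, P1, hEX⟩ := h
  obtain ⟨D, hD, P2, hSM⟩ := hsm
  obtain ⟨P3, hP3⟩ : ∃ P3 : ℕ, ∀ x : ℕ, P3 ≤ x → 2 * (x : ℝ) ≤ α ^ x := by
    have h1 : Tendsto (fun n : ℕ => (n : ℝ) ^ 1 / α ^ n) atTop (𝓝 0) :=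
      tendsto_pow_const_div_const_pow_of_one_lt 1 hα
    obtain ⟨P3, hP3⟩ := eventually_atTop.1 (h1.eventually_le_const (show (0 : ℝ) < 1 / 2 by norm_num))
    refine ⟨P3, fun x hx => ?_⟩
    have h2 := hP3 x hx
    have h3 : 0 < α ^ x := by positivity
    rw [pow_one, div_le_iff₀ h3] at h2
    linarith
  refine ⟨s1, C / s1 ^ 2 + D, hs1, hs12, by positivity, max (max P1 P2) (max P3 1),
    fun x hx T hT z hz t ht j hj1 hj2 δ hδ hm s hs => ?_⟩
  have hx1 : P1 ≤ x := ((le_max_left _ _).trans (le_max_left _ _)).trans hx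
  have hx2 : P2 ≤ x := ((le_max_right _ _).trans (le_max_left _ _)).trans hx
  have hx3' := hP3 x (((le_max_left _ _).trans (le_max_right _ _)).trans hx)
  have hx4 : 0 < x := ((le_max_right _ _).trans (le_max_right _ _)).trans hx
  obtain ⟨hE, -⟩ := hEX x hx1 T hT z hz t ht j hj1 hj2
  have hS := hSM x hx2 T hT z hz t ht j hj1 hj2
  have hmean : ∑ n ∈ cell α z t j, ((hits α g T t n).card : ℝ) = mT α g z t T j * α ^ (t - z) :=
    mean_cell hα
  have hVT : 0 ≤ VT T := by
    unfold VT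
    refine Finset.sum_nonneg fun p _ => ?_
    have := Real.log_natCast_nonneg p
    positivity
  have hα0 : 0 < α := by linarith
  have hx0 : (0 : ℝ) < x := by exact_mod_cast hx4
  have hcard : ((cell α z t j).card : ℝ) ≤ α ^ (t - z) * (1 + 1 / x) := by
    refine (card_cell hα z t j).trans ?_
    have h5 : 2 * (x : ℝ) ≤ α ^ (t - z) := by
      refine hx3'.trans ?_
      exact pow_le_pow_right₀ hα.le (by omega)
    have h6 : 2 ≤ α ^ (t - z) * (1 / x) := by
      rw [mul_one_div, le_div_iff₀ hx0]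
      exact h5
    linarith
  set N := α ^ (t - z) with hN
  have hN0 : 0 < N := by positivity
  set M := mT α g z t T j with hM
  set κ := kr α * VT T with hκ
  obtain ⟨hm1, hm2⟩ := abs_le.1 hm
  set F := (cell α z t j).filter (fun n => ((hits α g T t n).card : ℝ) ≤ √(Real.log x)) with hFdef
  have hFs : F ⊆ cell α z t j := filter_subset _ _
  rcases le_total 0 s with hs0 | hs0
  · have hss : s ≤ s1 := (le_abs_self s).trans hs
    have h1 : ∑ n ∈ F, (1 + s) ^ (hits α g T t n).card ≤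
        ∑ n ∈ F, (1 + s * ((hits α g T t n).card : ℝ)) +
          (s / s1) ^ 2 * ∑ n ∈ F, ((1 + s1) ^ (hits α g T t n).card - 1) := by
      rw [Finset.mul_sum, ← Finset.sum_add_distrib]
      exact Finset.sum_le_sum fun n _ => pow_up s s1 hs0 hss hs1 _
    have h2 : ∑ n ∈ F, (1 + s * ((hits α g T t n).card : ℝ)) ≤ N * (1 + (s * M + 1 / x)) := by
      calc _ ≤ ∑ n ∈ cell α z t j, (1 + s * ((hits α g T t n).card : ℝ)) :=
            Finset.sum_le_sum_of_subset_of_nonneg hFs fun _ _ _ => by positivity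
        _ = ((cell α z t j).card : ℝ) + s * M * N := by
            rw [Finset.sum_add_distrib, ← Finset.mul_sum, hmean, Finset.sum_const, nsmul_eq_mul]
            ring
        _ ≤ N * (1 + (s * M + 1 / x)) := by
            linarith [mul_add N 1 (1 / (x : ℝ)), mul_add N 1 (s * M + 1 / x), mul_add N (s * M) (1 / (x : ℝ)),
              mul_comm N (s * M)]
    have h3 : (s / s1) ^ 2 * ∑ n ∈ F, ((1 + s1) ^ (hits α g T t n).card - 1) ≤
        (s / s1) ^ 2 * (C * VT T * N) := mul_le_mul_of_nonneg_left hE (by positivity)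
    have h4 : s * M + (s / s1) ^ 2 * (C * VT T) ≤
        s * κ + |s| * δ + (C / s1 ^ 2 + D) * s ^ 2 * VT T := by
      rw [abs_of_nonneg hs0]
      have e : (s / s1) ^ 2 * (C * VT T) = C / s1 ^ 2 * s ^ 2 * VT T := by
        rw [div_pow]; ring
      have e2 : s * M ≤ s * κ + s * δ := by
        have : M ≤ κ + δ := by linarith
        calc s * M ≤ s * (κ + δ) := mul_le_mul_of_nonneg_left this hs0
          _ = _ := by ring
      have e3 : 0 ≤ D * s ^ 2 * VT T := by positivity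
      rw [e]
      linarith [add_mul (C / s1 ^ 2) D (s ^ 2), add_mul (C / s1 ^ 2 * s ^ 2) (D * s ^ 2) (VT T)]
    calc ∑ n ∈ F, (1 + s) ^ (hits α g T t n).card
        ≤ N * (1 + (s * M + 1 / x)) + (s / s1) ^ 2 * (C * VT T * N) := by linarith
      _ = (1 + (s * M + (s / s1) ^ 2 * (C * VT T) + 1 / x)) * N := by ring
      _ ≤ Real.exp (s * M + (s / s1) ^ 2 * (C * VT T) + 1 / x) * N := by
          refine mul_le_mul_of_nonneg_right ?_ hN0.le
          rw [add_comm]; exact Real.add_one_le_exp _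
      _ ≤ _ := by
          refine mul_le_mul_of_nonneg_right (Real.exp_le_exp.2 (by linarith)) hN0.le
  · set σ := -s with hσ
    have hσ0 : 0 ≤ σ := by rw [hσ]; linarith
    have hσs : |s| = σ := abs_of_nonpos hs0
    have hσ1 : σ ≤ 1 := by
      have : |s| ≤ s1 := hs
      rw [hσs] at this
      linarith
    have e0 : (1 : ℝ) + s = 1 - σ := by rw [hσ]; ring
    have e1 : s = -σ := by rw [hσ]; ring
    have h1 : ∑ n ∈ F, (1 + s) ^ (hits α g T t n).card ≤
        ∑ n ∈ cell α z t j, (1 - σ * ((hits α g T t n).card : ℝ) +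
          σ ^ 2 * ((hits α g T t n).card : ℝ) ^ 2) := by
      calc ∑ n ∈ F, (1 + s) ^ (hits α g T t n).card
          ≤ ∑ n ∈ cell α z t j, (1 + s) ^ (hits α g T t n).card := by
            refine Finset.sum_le_sum_of_subset_of_nonneg hFs fun _ _ _ => ?_
            rw [e0]
            exact pow_nonneg (by linarith) _
        _ ≤ _ := by
            refine Finset.sum_le_sum fun n _ => ?_
            rw [e0]
            exact pow_down σ hσ0 hσ1 _
    have h2 : ∑ n ∈ cell α z t j, (1 - σ * ((hits α g T t n).card : ℝ) +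
          σ ^ 2 * ((hits α g T t n).card : ℝ) ^ 2) ≤
        N * (1 + (-(σ * M) + 1 / x)) + σ ^ 2 * ∑ n ∈ cell α z t j, ((hits α g T t n).card : ℝ) ^ 2 := by
      rw [Finset.sum_add_distrib, Finset.sum_sub_distrib, ← Finset.mul_sum, ← Finset.mul_sum, hmean,
        Finset.sum_const, nsmul_eq_mul]
      linarith [mul_add N 1 (1 / (x : ℝ)), mul_add N 1 (-(σ * M) + 1 / x),
        mul_add N (-(σ * M)) (1 / (x : ℝ)), mul_comm N (-(σ * M)), neg_mul (σ * M) N, mul_assoc σ M N]
    have h3 : σ ^ 2 * ∑ n ∈ cell α z t j, ((hits α g T t n).card : ℝ) ^ 2 ≤ σ ^ 2 * (D * VT T * N) :=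
      mul_le_mul_of_nonneg_left hS (by positivity)
    have h4 : -(σ * M) + σ ^ 2 * (D * VT T) ≤
        s * κ + |s| * δ + (C / s1 ^ 2 + D) * s ^ 2 * VT T := by
      rw [hσs]
      have e2 : -(σ * M) ≤ s * κ + σ * δ := by
        have : κ - δ ≤ M := by linarith
        have h5 : σ * (κ - δ) ≤ σ * M := mul_le_mul_of_nonneg_left this hσ0
        rw [e1]
        linarith [mul_sub σ κ δ, neg_mul σ κ]
      have e3 : 0 ≤ C / s1 ^ 2 * s ^ 2 * VT T := by positivity
      have e4 : σ ^ 2 * (D * VT T) = D * s ^ 2 * VT T := by rw [hσ]; ring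
      rw [e4]
      linarith [add_mul (C / s1 ^ 2) D (s ^ 2), add_mul (C / s1 ^ 2 * s ^ 2) (D * s ^ 2) (VT T)]
    calc ∑ n ∈ F, (1 + s) ^ (hits α g T t n).card
        ≤ N * (1 + (-(σ * M) + 1 / x)) + σ ^ 2 * (D * VT T * N) := by linarith
      _ = (1 + (-(σ * M) + σ ^ 2 * (D * VT T) + 1 / x)) * N := by ring
      _ ≤ Real.exp (-(σ * M) + σ ^ 2 * (D * VT T) + 1 / x) * N := by
          refine mul_le_mul_of_nonneg_right ?_ hN0.le
          rw [add_comm]; exact Real.add_one_le_exp _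
      _ ≤ _ := by
          refine mul_le_mul_of_nonneg_right (Real.exp_le_exp.2 (by linarith)) hN0.le

end Pool.Agent.N176.GW.BL
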