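import Mathlib
import Pool.Agent.N176.GW.Stm

set_option autoImplicit false

/-!
# Real bases: dyadic blocks of exponents, the exponential inequality, good amplitudes
-/

namespace Pool.Agent.N176.GW

open Finset Filter Topology MeasureTheory
open Pool.Agent.N176.OW (VT TS VS dl dl_nonneg VP DP TS_prop VT_nonneg exp_neg_le)
open Pool.Agent.H305R2 (roughPart)

open Classical in
/-- the number of primes `p ≤ n` in `S` for which the integer of level `p` has prime rough part -/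
noncomputable def MB (α : ℝ) (g : ℕ → ℝ) (S : Set ℕ) (β : ℝ) (n : ℕ) : ℕ :=
  ((range (n + 1)).filter (fun p => p.Prime ∧ p ∈ S ∧ (roughPart p ⌊β * α ^ p + g p⌋₊).Prime)).card

/-- the number of exponents in the block -/
noncomputable def NBl (α : ℝ) (g : ℕ → ℝ) (S : Set ℕ) (β : ℝ) (i : ℕ) : ℕ :=
  ((TS S i).filter (fun p => (roughPart p ⌊β * α ^ p + g p⌋₊).Prime)).card

lemma MB_step (α : ℝ) (g : ℕ → ℝ) (S : Set ℕ) (β : ℝ) (i : ℕ) :
    MB α g S β (2 ^ (i + 1)) = MB α g S β (2 ^ i) + NBl α g S β i := by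
  classical
  unfold MB NBl TS
  have hle : 2 ^ i ≤ 2 ^ (i + 1) := Nat.pow_le_pow_right (by norm_num) (by omega)
  rw [← Finset.card_union_of_disjoint]
  · congr 1
    ext p
    simp only [mem_union, mem_filter, mem_range, mem_Ioc]
    constructor
    · rintro ⟨h1, h2, h3, h4⟩
      rcases Nat.lt_or_ge p (2 ^ i + 1) with h5 | h5
      · exact Or.inl ⟨h5, h2, h3, h4⟩
      · exact Or.inr ⟨⟨⟨by omega, by omega⟩, h2, h3⟩, h4⟩
    · rintro (⟨h1, h2, h3, h4⟩ | ⟨⟨⟨h1, h1'⟩, h2, h3⟩, h4⟩)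
      · exact ⟨by omega, h2, h3, h4⟩
      · exact ⟨by omega, h2, h3, h4⟩
  · rw [Finset.disjoint_left]
    intro p h1 h2
    simp only [mem_filter, mem_range, mem_Ioc] at h1 h2
    omega

/-- the integers of the block are computed from the integer of a higher level -/
def Agr (α : ℝ) (g : ℕ → ℝ) (β : ℝ) (i : ℕ) : Prop := ∀ p ∈ Ioc (2 ^ i) (2 ^ (i + 1)),
  ⌊β * α ^ p + g p⌋₊ = lv α g (2 ^ (i + 2)) p ⌊β * α ^ (2 ^ (i + 2))⌋₊

lemma NBl_eq {α : ℝ} {g : ℕ → ℝ} {β : ℝ} {i : ℕ} (h : Agr α g β i) (S : Set ℕ) :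
    NBl α g S β i = (hits α g (TS S i) (2 ^ (i + 2)) ⌊β * α ^ (2 ^ (i + 2))⌋₊).card := by
  classical
  unfold NBl hits
  congr 1
  refine Finset.filter_congr fun p hp => ?_
  have h1 : p ∈ Ioc (2 ^ i) (2 ^ (i + 1)) := by
    unfold TS at hp
    exact (mem_filter.1 hp).1
  rw [h p h1]

/-- the amplitude is good at the block `i` -/
def Gd (α : ℝ) (g : ℕ → ℝ) (k1 : ℕ) (K : ℝ) (S : Set ℕ) (β : ℝ) (i : ℕ) : Prop :=
  |mT α g (2 ^ (i + 2 - k1)) (2 ^ (i + 2)) (TS S i) ⌊β * α ^ (2 ^ (i + 2 - k1))⌋₊ -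
    kr α * VT (TS S i)| ≤ dl K S i ∧
    (NBl α g S β i : ℝ) ≤ √(Real.log ((2 ^ i : ℕ) : ℝ)) ∧ Agr α g β i

noncomputable def NP (α : ℝ) (g : ℕ → ℝ) (S : Set ℕ) (β : ℝ) (k1 a i : ℕ) : ℕ :=
  ∑ l ∈ range i, NBl α g S β (a + l * k1)

lemma vol_n {α : ℝ} (hα : 1 < α) (t n : ℕ) :
    volume {β : ℝ | 0 < β ∧ ⌊β * α ^ t⌋₊ = n} ≤ ENNReal.ofReal ((α ^ t)⁻¹) := by
  have h0 : 0 < α ^ t := by positivity
  have hsub : {β : ℝ | 0 < β ∧ ⌊β * α ^ t⌋₊ = n} ⊆ Set.Icc (n / α ^ t) ((n + 1) / α ^ t) := by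
    rintro β ⟨h1, h2⟩
    have h3 : 0 ≤ β * α ^ t := by positivity
    have h4 := Nat.floor_le h3
    have h5 := Nat.lt_floor_add_one (β * α ^ t)
    rw [h2] at h4 h5
    rw [Set.mem_Icc, div_le_iff₀ h0, le_div_iff₀ h0]
    exact ⟨h4, h5.le⟩
  refine (measure_mono hsub).trans ?_
  rw [Real.volume_Icc]
  refine ENNReal.ofReal_le_ofReal (le_of_eq ?_)
  field_simp
  ring

lemma mem_cell {α : ℝ} (hα : 1 < α) {z t : ℕ} (hzt : z ≤ t) {β : ℝ} (hβ : 0 < β) :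
    ⌊β * α ^ t⌋₊ ∈ cell α z t ⌊β * α ^ z⌋₊ := by
  have h0 : 0 < α ^ (t - z) := by positivity
  have h3 : 0 ≤ β * α ^ z := by positivity
  have h4 := Nat.floor_le h3
  have h5 := Nat.lt_floor_add_one (β * α ^ z)
  have e : β * α ^ t = β * α ^ z * α ^ (t - z) := by
    rw [mul_assoc, ← pow_add]
    congr 2
    omega
  unfold cell
  rw [mem_Ico]
  constructor
  · refine Nat.floor_mono ?_
    rw [e]
    exact mul_le_mul_of_nonneg_right h4 h0.le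
  · rw [Nat.floor_lt (by positivity)]
    refine lt_of_lt_of_le ?_ (Nat.le_ceil _)
    rw [e]
    exact mul_lt_mul_of_pos_right h5 h0

open Classical in
lemma vol_cell {α : ℝ} (hα : 1 < α) {z t : ℕ} (hzt : z ≤ t) (j : ℕ) (Pr : ℕ → Prop) :
    volume {β : ℝ | 0 < β ∧ ⌊β * α ^ z⌋₊ = j ∧ Pr ⌊β * α ^ t⌋₊} ≤
      ENNReal.ofReal ((((cell α z t j).filter Pr).card : ℝ) * (α ^ t)⁻¹) := by
  have hsub : {β : ℝ | 0 < β ∧ ⌊β * α ^ z⌋₊ = j ∧ Pr ⌊β * α ^ t⌋₊} ⊆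
      ⋃ n ∈ (cell α z t j).filter Pr, {β : ℝ | 0 < β ∧ ⌊β * α ^ t⌋₊ = n} := by
    rintro β ⟨h1, h2, h3⟩
    rw [Set.mem_iUnion₂]
    refine ⟨⌊β * α ^ t⌋₊, ?_, h1, rfl⟩
    rw [mem_filter]
    refine ⟨?_, h3⟩
    rw [← h2]
    exact mem_cell hα hzt h1
  refine (measure_mono hsub).trans ((measure_biUnion_finset_le _ _).trans ?_)
  refine (Finset.sum_le_card_nsmul _ _ _ fun n _ => vol_n hα t n).trans ?_
  rw [nsmul_eq_mul, ENNReal.ofReal_mul (Nat.cast_nonneg _), ENNReal.ofReal_natCast]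

/-- the range of the first integers -/
lemma first_mem {α : ℝ} (hα : 1 < α) {z m0 : ℕ} (hz : m0 ≤ z) {β : ℝ} (h1 : (α ^ m0)⁻¹ < β)
    (h2 : β ≤ α ^ m0) : ⌊β * α ^ z⌋₊ ∈ Icc 1 ⌊α ^ (z + m0)⌋₊ := by
  have h0 : 0 < α ^ m0 := by positivity
  have hβ : 0 < β := lt_trans (by positivity) h1
  rw [mem_Icc]
  constructor
  · rw [Nat.one_le_floor_iff]
    have h3 : 1 ≤ (α ^ m0)⁻¹ * α ^ z := by
      rw [inv_mul_eq_div, le_div_iff₀ h0, one_mul]
      exact pow_le_pow_right₀ hα.le hz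
    exact h3.trans (mul_le_mul_of_nonneg_right h1.le (by positivity))
  · refine Nat.floor_mono ?_
    rw [pow_add, mul_comm]
    exact mul_le_mul_of_nonneg_left h2 (by positivity)

lemma sum_half (a k1 i : ℕ) (hk1 : 1 ≤ k1) :
    ∑ l ∈ range i, 1 / ((2 ^ (a + l * k1) : ℕ) : ℝ) ≤ 2 := by
  have h1 : ∀ l ∈ range i, 1 / ((2 ^ (a + l * k1) : ℕ) : ℝ) ≤ (1 / 2) ^ l := by
    intro l _
    rw [one_div_pow]
    push_cast
    refine one_div_le_one_div_of_le (by positivity) ?_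
    refine pow_le_pow_right₀ (by norm_num) ?_
    nlinarith
  refine (Finset.sum_le_sum h1).trans ?_
  have h2 := Summable.sum_le_tsum (range i) (fun l _ => by positivity) summable_geometric_two
  rw [tsum_geometric_two] at h2
  exact h2

open Classical in
theorem core {α : ℝ} (hα : 1 < α) {g : ℕ → ℝ} (hI : S_ITM α) {s1 C : ℝ} {P k1 : ℕ} {K : ℝ}
    (hk1 : 8 ≤ k1) (hK : 0 < K) (hs1 : s1 ≤ 1 / 2)
    (hBL : ∀ x ≥ P, ∀ T : Finset ℕ, (∀ p ∈ T, p.Prime ∧ x < p ∧ p ≤ 2 * x) → ∀ z : ℕ, 64 * z ≤ x →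
      ∀ t : ℕ, 4 * x ≤ t → ∀ j : ℕ, 1 ≤ j → (j : ℝ) ≤ α ^ (2 * z) → ∀ δ : ℝ, 0 ≤ δ →
      |mT α g z t T j - kr α * VT T| ≤ δ → ∀ s : ℝ, |s| ≤ s1 →
      ∑ n ∈ (cell α z t j).filter (fun n => ((hits α g T t n).card : ℝ) ≤ √(Real.log x)),
        (1 + s) ^ (hits α g T t n).card ≤
        Real.exp (s * (kr α * VT T) + |s| * δ + C * s ^ 2 * VT T + 1 / x) * α ^ (t - z))
    (S : Set ℕ) {m0 a : ℕ} (ha1 : P ≤ 2 ^ a) (ha2 : k1 ≤ a) (ha3 : m0 ≤ 2 ^ (a + 2 - k1))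
    {s : ℝ} (hs : |s| ≤ s1) {lam : ℝ} (hlam : 0 < lam) :
    volume {β : ℝ | (α ^ m0)⁻¹ < β ∧ β ≤ α ^ m0 ∧ ∃ i : ℕ,
      (∀ l < i, Gd α g k1 K S β (a + l * k1)) ∧
      lam * Real.exp (s * (kr α * VP S k1 a i) + |s| * DP K S k1 a i + C * s ^ 2 * VP S k1 a i) ≤
        (1 + s) ^ (NP α g S β k1 a i)} ≤ ENNReal.ofReal (8 * α ^ m0 / lam) := by
  have hα0 : 0 < α := by linarith
  set τ : ℕ → ℕ := fun l => 2 ^ (a + 2 - k1 + l * k1) with hτ
  have hτmono : Monotone τ := by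
    intro x y hxy
    exact Nat.pow_le_pow_right (by norm_num) (by nlinarith)
  have hτS : ∀ l, τ (l + 1) = 2 ^ (a + l * k1 + 2) := by
    intro l
    simp only [hτ]
    congr 1
    rw [Nat.succ_mul]
    omega
  have hτl : ∀ l, τ l = 2 ^ (a + l * k1 + 2 - k1) := by
    intro l
    simp only [hτ]
    congr 1
    omega
  have hs' : -(1 / 2) ≤ s := by
    have := neg_abs_le s
    linarith
  set w : ℕ → ℕ → ℕ → ℝ := fun l m n => if |mT α g (τ l) (τ (l + 1)) (TS S (a + l * k1)) m -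
      kr α * VT (TS S (a + l * k1))| ≤ dl K S (a + l * k1) ∧
      ((hits α g (TS S (a + l * k1)) (τ (l + 1)) n).card : ℝ) ≤ √(Real.log ((2 ^ (a + l * k1) : ℕ) : ℝ))
      then (1 + s) ^ (hits α g (TS S (a + l * k1)) (τ (l + 1)) n).card else 0 with hw
  set E : ℕ → ℝ := fun l => Real.exp (s * (kr α * VT (TS S (a + l * k1))) + |s| * dl K S (a + l * k1) +
      C * s ^ 2 * VT (TS S (a + l * k1)) + 1 / ((2 ^ (a + l * k1) : ℕ) : ℝ)) with hE
  have hw0 : ∀ l m n, 0 ≤ w l m n := by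
    intro l m n
    simp only [hw]
    split_ifs
    · have : 0 ≤ 1 + s := by linarith
      positivity
    · exact le_rfl
  have hE0 : ∀ l, 0 < E l := fun l => Real.exp_pos _
  have hstep : ∀ l m : ℕ, 1 ≤ m → (m : ℝ) ≤ α ^ (2 * τ l) →
      ∑ n ∈ cell α (τ l) (τ (l + 1)) m, w l m n ≤ E l * α ^ (τ (l + 1) - τ l) := by
    intro l m hm1 hm2
    by_cases hg : |mT α g (τ l) (τ (l + 1)) (TS S (a + l * k1)) m - kr α * VT (TS S (a + l * k1))| ≤
        dl K S (a + l * k1)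
    · have h1 : ∑ n ∈ cell α (τ l) (τ (l + 1)) m, w l m n =
          ∑ n ∈ (cell α (τ l) (τ (l + 1)) m).filter (fun n =>
            ((hits α g (TS S (a + l * k1)) (τ (l + 1)) n).card : ℝ) ≤
              √(Real.log ((2 ^ (a + l * k1) : ℕ) : ℝ))),
            (1 + s) ^ (hits α g (TS S (a + l * k1)) (τ (l + 1)) n).card := by
        rw [Finset.sum_filter]
        refine Finset.sum_congr rfl fun n hn => ?_
        simp only [hw]
        by_cases h2 : ((hits α g (TS S (a + l * k1)) (τ (l + 1)) n).card : ℝ) ≤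
              √(Real.log ((2 ^ (a + l * k1) : ℕ) : ℝ))
        · rw [if_pos ⟨hg, h2⟩, if_pos h2]
        · rw [if_neg (fun h => h2 h.2), if_neg h2]
      rw [h1]
      refine hBL (2 ^ (a + l * k1)) ?_ (TS S (a + l * k1)) (TS_prop S _) (τ l) ?_ (τ (l + 1)) ?_ m hm1 hm2
        (dl K S (a + l * k1)) (dl_nonneg hK.le S _) hg s hs
      · exact ha1.trans (Nat.pow_le_pow_right (by norm_num) (by omega))
      · rw [hτl]
        calc 64 * 2 ^ (a + l * k1 + 2 - k1) = 2 ^ (6 + (a + l * k1 + 2 - k1)) := by rw [pow_add]; norm_num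
          _ ≤ 2 ^ (a + l * k1) := Nat.pow_le_pow_right (by norm_num) (by omega)
      · rw [hτS, pow_add _ (a + l * k1) 2]
        omega
    · have h1 : ∑ n ∈ cell α (τ l) (τ (l + 1)) m, w l m n = 0 := by
        refine Finset.sum_eq_zero fun n hn => ?_
        simp only [hw]
        rw [if_neg (fun h => hg h.1)]
      rw [h1]
      have := hE0 l
      positivity
  have hm0 : m0 ≤ τ 0 := by
    simp only [hτ]
    simpa using ha3
  set lam' : ℝ := lam * Real.exp (-2) with hlam'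
  have hlam'0 : 0 < lam' := by positivity
  -- finite horizon
  have hfin : ∀ k : ℕ, volume {β : ℝ | (α ^ m0)⁻¹ < β ∧ β ≤ α ^ m0 ∧
      ∃ i ≤ k, lam' * ∏ l ∈ range i, E l ≤
        ∏ l ∈ range i, w l ⌊β * α ^ (τ l)⌋₊ ⌊β * α ^ (τ (l + 1))⌋₊} ≤
      ENNReal.ofReal (α ^ m0 / lam') := by
    intro k
    have hsub : {β : ℝ | (α ^ m0)⁻¹ < β ∧ β ≤ α ^ m0 ∧
        ∃ i ≤ k, lam' * ∏ l ∈ range i, E l ≤
          ∏ l ∈ range i, w l ⌊β * α ^ (τ l)⌋₊ ⌊β * α ^ (τ (l + 1))⌋₊} ⊆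
        ⋃ j ∈ Icc 1 ⌊α ^ (τ 0 + m0)⌋₊, {β : ℝ | 0 < β ∧ β ≤ α ^ (τ 0) ∧ ⌊β * α ^ (τ 0)⌋₊ = j ∧
          ∃ i ≤ k, lam' * ∏ l ∈ range i, E l ≤
            ∏ l ∈ range i, w l ⌊β * α ^ (τ l)⌋₊ ⌊β * α ^ (τ (l + 1))⌋₊} := by
      rintro β ⟨h1, h2, h3⟩
      rw [Set.mem_iUnion₂]
      refine ⟨⌊β * α ^ (τ 0)⌋₊, first_mem hα hm0 h1 h2, lt_trans (by positivity) h1,
        h2.trans (pow_le_pow_right₀ hα.le hm0), rfl, h3⟩
    refine (measure_mono hsub).trans ((measure_biUnion_finset_le _ _).trans ?_)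
    refine (Finset.sum_le_card_nsmul _ _ _ fun j hj => hI τ w E hτmono hw0 hE0 hstep k j
      (mem_Icc.1 hj).1 lam' hlam'0).trans ?_
    rw [nsmul_eq_mul, ← ENNReal.ofReal_natCast, ← ENNReal.ofReal_mul (Nat.cast_nonneg _)]
    refine ENNReal.ofReal_le_ofReal ?_
    rw [Nat.card_Icc, Nat.add_sub_cancel]
    have h1 : ((⌊α ^ (τ 0 + m0)⌋₊ : ℕ) : ℝ) ≤ α ^ (τ 0 + m0) := Nat.floor_le (by positivity)
    calc ((⌊α ^ (τ 0 + m0)⌋₊ : ℕ) : ℝ) * ((α ^ τ 0)⁻¹ / lam') ≤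
          α ^ (τ 0 + m0) * ((α ^ τ 0)⁻¹ / lam') := mul_le_mul_of_nonneg_right h1 (by positivity)
      _ = α ^ m0 / lam' := by
          rw [pow_add]
          field_simp
  -- the event
  set Q : ℕ → Set ℝ := fun k => {β : ℝ | (α ^ m0)⁻¹ < β ∧ β ≤ α ^ m0 ∧ ∃ i ≤ k,
      (∀ l < i, Gd α g k1 K S β (a + l * k1)) ∧
      lam * Real.exp (s * (kr α * VP S k1 a i) + |s| * DP K S k1 a i + C * s ^ 2 * VP S k1 a i) ≤
        (1 + s) ^ (NP α g S β k1 a i)} with hQ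
  have hQle : ∀ k, volume (Q k) ≤ ENNReal.ofReal (8 * α ^ m0 / lam) := by
    intro k
    have hle : ENNReal.ofReal (α ^ m0 / lam') ≤ ENNReal.ofReal (8 * α ^ m0 / lam) := by
      refine ENNReal.ofReal_le_ofReal ?_
      have h2 : Real.exp 2 ≤ 8 := by
        have h3 := Real.exp_one_lt_d9
        have h4 : Real.exp 2 = Real.exp 1 ^ 2 := by
          rw [← Real.exp_nat_mul]
          norm_num
        rw [h4]
        nlinarith [Real.exp_pos 1]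
      have h3 : α ^ m0 / lam' = Real.exp 2 * α ^ m0 / lam := by
        rw [hlam', Real.exp_neg]
        field_simp
      rw [h3]
      refine div_le_div_of_nonneg_right ?_ hlam.le
      exact mul_le_mul_of_nonneg_right h2 (by positivity)
    refine ((measure_mono ?_).trans (hfin k)).trans hle
    rintro β ⟨h1, h2, i, hi, h3, h4⟩
    refine ⟨h1, h2, i, hi, ?_⟩
    have hwl : ∀ l ∈ range i, w l ⌊β * α ^ (τ l)⌋₊ ⌊β * α ^ (τ (l + 1))⌋₊ =
        (1 + s) ^ (NBl α g S β (a + l * k1)) := by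
      intro l hl
      rw [mem_range] at hl
      obtain ⟨g1, g2, g3⟩ := h3 l hl
      have hN := NBl_eq g3 S
      simp only [hw]
      rw [hτS, hτl]
      rw [hN] at g2
      rw [if_pos ⟨g1, g2⟩, hN]
    rw [Finset.prod_congr rfl hwl, Finset.prod_pow_eq_pow_sum]
    have hEp : ∏ l ∈ range i, E l = Real.exp (s * (kr α * VP S k1 a i) + |s| * DP K S k1 a i +
        C * s ^ 2 * VP S k1 a i + ∑ l ∈ range i, 1 / ((2 ^ (a + l * k1) : ℕ) : ℝ)) := by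
      simp only [hE]
      rw [← Real.exp_sum]
      congr 1
      rw [Finset.sum_add_distrib, Finset.sum_add_distrib, Finset.sum_add_distrib]
      unfold VP DP
      simp only [Finset.mul_sum]
    rw [hEp]
    refine le_trans ?_ h4
    rw [hlam', mul_assoc, ← Real.exp_add]
    refine mul_le_mul_of_nonneg_left (Real.exp_le_exp.2 ?_) hlam.le
    have := sum_half a k1 i (by omega)
    linarith
  have hQmono : Monotone Q := by
    intro x y hxy β hβ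
    obtain ⟨h1, h2, i, hi, h3⟩ := hβ
    exact ⟨h1, h2, i, hi.trans hxy, h3⟩
  have hunion : {β : ℝ | (α ^ m0)⁻¹ < β ∧ β ≤ α ^ m0 ∧ ∃ i : ℕ,
      (∀ l < i, Gd α g k1 K S β (a + l * k1)) ∧
      lam * Real.exp (s * (kr α * VP S k1 a i) + |s| * DP K S k1 a i + C * s ^ 2 * VP S k1 a i) ≤
        (1 + s) ^ (NP α g S β k1 a i)} ⊆ ⋃ k, Q k := by
    rintro β ⟨h1, h2, i, h3⟩
    rw [Set.mem_iUnion]
    exact ⟨i, h1, h2, i, le_rfl, h3⟩
  refine (measure_mono hunion).trans ?_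
  rw [hQmono.measure_iUnion]
  exact iSup_le hQle

end Pool.Agent.N176.GW
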