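import Mathlib
import Pool.Agent.N176.GW.M

set_option autoImplicit false

/-!
# Real bases: almost every amplitude is good at all large blocks
-/

namespace Pool.Agent.N176.GW

open Finset Filter Topology MeasureTheory
open Pool.Agent.N176.OW (VT TS VS dl dl_nonneg VP DP TS_prop VT_nonneg exp_neg_le)
open Pool.Agent.H305R2 (roughPart)

/-- the measure of the amplitudes with a property of the first integer -/
lemma vol_first {α : ℝ} (hα : 1 < α) {z m0 : ℕ} (Pr : ℕ → Prop) [DecidablePred Pr] :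
    volume {β : ℝ | (α ^ m0)⁻¹ < β ∧ β ≤ α ^ m0 ∧ Pr ⌊β * α ^ z⌋₊} ≤
      ENNReal.ofReal ((((Ico ⌊α ^ (z - (m0 + 1))⌋₊ ⌈α ^ (z + (m0 + 1))⌉₊).filter Pr).card : ℝ) *
        (α ^ z)⁻¹) ∨ z < m0 + 1 := by
  rcases Nat.lt_or_ge z (m0 + 1) with hz | hz
  · exact Or.inr hz
  left
  have hα0 : 0 < α := by linarith
  have hsub : {β : ℝ | (α ^ m0)⁻¹ < β ∧ β ≤ α ^ m0 ∧ Pr ⌊β * α ^ z⌋₊} ⊆
      ⋃ n ∈ (Ico ⌊α ^ (z - (m0 + 1))⌋₊ ⌈α ^ (z + (m0 + 1))⌉₊).filter Pr,
        {β : ℝ | 0 < β ∧ ⌊β * α ^ z⌋₊ = n} := by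
    rintro β ⟨h1, h2, h3⟩
    have hβ : 0 < β := lt_trans (by positivity) h1
    rw [Set.mem_iUnion₂]
    refine ⟨⌊β * α ^ z⌋₊, ?_, hβ, rfl⟩
    rw [mem_filter, mem_Ico]
    refine ⟨⟨Nat.floor_mono ?_, ?_⟩, h3⟩
    · have e : α ^ (z - (m0 + 1)) = (α ^ (m0 + 1))⁻¹ * α ^ z := by
        rw [inv_mul_eq_div, eq_div_iff (by positivity), ← pow_add]
        congr 1
        omega
      rw [e]
      refine mul_le_mul_of_nonneg_right ?_ (by positivity)
      refine le_trans ?_ h1.le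
      rw [inv_le_inv₀ (by positivity) (by positivity)]
      exact pow_le_pow_right₀ hα.le (by omega)
    · rw [Nat.floor_lt (by positivity)]
      refine lt_of_lt_of_le ?_ (Nat.le_ceil _)
      calc β * α ^ z ≤ α ^ m0 * α ^ z := mul_le_mul_of_nonneg_right h2 (by positivity)
        _ = α ^ (z + m0) := by rw [← pow_add, add_comm]
        _ < α ^ (z + (m0 + 1)) := pow_lt_pow_right₀ hα (by omega)
  refine (measure_mono hsub).trans ((measure_biUnion_finset_le _ _).trans ?_)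
  refine (Finset.sum_le_card_nsmul _ _ _ fun n _ => vol_n hα z n).trans ?_
  rw [nsmul_eq_mul, ENNReal.ofReal_mul (Nat.cast_nonneg _), ENNReal.ofReal_natCast]

open Classical in
theorem good_ae {α : ℝ} (hα : 1 < α) {g : ℕ → ℝ} (hA : S_AGR α g) {c : ℝ} {P k1 : ℕ} {K : ℝ}
    (hk1 : 8 ≤ k1) (hc : 0 < c)
    (hEX : ∀ x ≥ P, ∀ T : Finset ℕ, (∀ p ∈ T, p.Prime ∧ x < p ∧ p ≤ 2 * x) → ∀ z : ℕ, 64 * z ≤ x →
      ∀ t : ℕ, 4 * x ≤ t → ∀ j : ℕ, 1 ≤ j → (j : ℝ) ≤ α ^ (2 * z) →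
      (((cell α z t j).filter (fun n => √(Real.log x) < ((hits α g T t n).card : ℝ))).card : ℝ) ≤
        Real.exp (-(c * √(Real.log x))) * α ^ (t - z))
    (hGC : ∀ m0 : ℕ, ∃ P : ℕ,
      ∀ i ≥ P, ∀ T : Finset ℕ, (∀ p ∈ T, p.Prime ∧ 2 ^ i < p ∧ p ≤ 2 ^ (i + 1)) →
      (((Ico ⌊α ^ (2 ^ (i + 2 - k1) - m0)⌋₊ ⌈α ^ (2 ^ (i + 2 - k1) + m0)⌉₊).filter
        (fun m => 1 / (i : ℝ) ^ 2 + K * VT T / i <
          |mT α g (2 ^ (i + 2 - k1)) (2 ^ (i + 2)) T m - kr α * VT T|)).card : ℝ) ≤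
        α ^ (2 ^ (i + 2 - k1)) / (i : ℝ) ^ 2)
    (S : Set ℕ) : ∀ᵐ β : ℝ, 0 < β → ∀ᶠ i : ℕ in atTop, Gd α g k1 K S β i := by
  have hα0 : 0 < α := by linarith
  have hl2 : 0 < Real.log 2 := Real.log_pos (by norm_num)
  have hae : ∀ m0 : ℕ, ∀ᵐ β : ℝ, (α ^ m0)⁻¹ < β → β ≤ α ^ m0 →
      ∀ᶠ i : ℕ in atTop, Agr α g β i → Gd α g k1 K S β i := by
    intro m0
    obtain ⟨P2, hP2⟩ := hGC (m0 + 1)
    have hpow : Tendsto (fun i : ℕ => 2 ^ (i + 2 - k1)) atTop atTop := by
      refine (tendsto_pow_atTop_atTop_of_one_lt (by norm_num)).comp ?_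
      exact tendsto_atTop_mono (fun i => show i - k1 ≤ i + 2 - k1 by omega) (tendsto_sub_atTop_nat k1)
    have hpow2 : Tendsto (fun i : ℕ => 2 ^ i) atTop atTop := tendsto_pow_atTop_atTop_of_one_lt (by norm_num)
    obtain ⟨i0, hi0⟩ := ((hpow.eventually_ge_atTop (m0 + 1)).and ((hpow2.eventually_ge_atTop P).and
      ((eventually_ge_atTop P2).and ((eventually_ge_atTop k1).and
      (eventually_ge_atTop 1))))).exists_forall_of_atTop
    set p : ℕ → ℝ → Prop := fun i β => i0 ≤ i ∧ (α ^ m0)⁻¹ < β ∧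
      β ≤ α ^ m0 ∧ Agr α g β i ∧ ¬ Gd α g k1 K S β i with hp
    set C' : ℝ := 1 + α ^ m0 * (24 / (c ^ 4 * Real.log 2 ^ 2)) with hC'
    have hmeas : ∀ i : ℕ, volume {β : ℝ | p i β} ≤ ENNReal.ofReal (C' * (1 / (i : ℝ) ^ 2)) := by
      intro i
      by_cases hi : i0 ≤ i
      · obtain ⟨h1, h2, h3, h4, h5⟩ := hi0 i hi
        have hir : (1 : ℝ) ≤ i := by exact_mod_cast h5
        set z := 2 ^ (i + 2 - k1) with hz
        set T := TS S i with hT
        set t := 2 ^ (i + 2) with ht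
        have hTp : ∀ p ∈ T, p.Prime ∧ 2 ^ i < p ∧ p ≤ 2 ^ (i + 1) := by
          intro p hp
          obtain ⟨g1, g2, g3⟩ := TS_prop S i p hp
          exact ⟨g1, g2, by rw [pow_succ]; omega⟩
        -- the two parts
        have hA1 : volume {β : ℝ | (α ^ m0)⁻¹ < β ∧ β ≤ α ^ m0 ∧
            (1 / (i : ℝ) ^ 2 + K * VT T / i < |mT α g z t T ⌊β * α ^ z⌋₊ - kr α * VT T|)} ≤
            ENNReal.ofReal (1 / (i : ℝ) ^ 2) := by
          rcases vol_first hα (z := z) (m0 := m0)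
            (fun m => 1 / (i : ℝ) ^ 2 + K * VT T / i < |mT α g z t T m - kr α * VT T|) with h | h
          · refine h.trans (ENNReal.ofReal_le_ofReal ?_)
            refine (mul_le_mul_of_nonneg_right (hP2 i h3 T hTp) (by positivity)).trans (le_of_eq ?_)
            rw [← hz]
            field_simp
          · omega
        have hzt : z ≤ t := Nat.pow_le_pow_right (by norm_num) (by omega)
        have hx0 : (0 : ℝ) < Real.log ((2 ^ i : ℕ) : ℝ) := by
          refine Real.log_pos ?_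
          have : 2 ≤ 2 ^ i := by
            calc 2 = 2 ^ 1 := rfl
              _ ≤ 2 ^ i := Nat.pow_le_pow_right (by norm_num) h5
          have : (2 : ℝ) ≤ ((2 ^ i : ℕ) : ℝ) := by exact_mod_cast this
          linarith
        have hB : volume {β : ℝ | (α ^ m0)⁻¹ < β ∧ β ≤ α ^ m0 ∧
            (√(Real.log ((2 ^ i : ℕ) : ℝ)) < ((hits α g T t ⌊β * α ^ t⌋₊).card : ℝ))} ≤
            ENNReal.ofReal (α ^ m0 * Real.exp (-(c * √(Real.log ((2 ^ i : ℕ) : ℝ))))) := by
          set Pr : ℕ → Prop := fun n => √(Real.log ((2 ^ i : ℕ) : ℝ)) <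
            ((hits α g T t n).card : ℝ) with hPr
          have hsub : {β : ℝ | (α ^ m0)⁻¹ < β ∧ β ≤ α ^ m0 ∧ Pr ⌊β * α ^ t⌋₊} ⊆
              ⋃ j ∈ Icc 1 ⌊α ^ (z + m0)⌋₊, {β : ℝ | 0 < β ∧ ⌊β * α ^ z⌋₊ = j ∧ Pr ⌊β * α ^ t⌋₊} := by
            rintro β ⟨g1, g2, g3⟩
            rw [Set.mem_iUnion₂]
            exact ⟨⌊β * α ^ z⌋₊, first_mem hα (by omega) g1 g2, lt_trans (by positivity) g1, rfl, g3⟩
          refine (measure_mono hsub).trans ((measure_biUnion_finset_le _ _).trans ?_)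
          have hj : ∀ j ∈ Icc 1 ⌊α ^ (z + m0)⌋₊,
              volume {β : ℝ | 0 < β ∧ ⌊β * α ^ z⌋₊ = j ∧ Pr ⌊β * α ^ t⌋₊} ≤
              ENNReal.ofReal (Real.exp (-(c * √(Real.log ((2 ^ i : ℕ) : ℝ)))) * (α ^ z)⁻¹) := by
            intro j hj
            rw [mem_Icc] at hj
            refine (vol_cell hα hzt j Pr).trans (ENNReal.ofReal_le_ofReal ?_)
            have hj2 : (j : ℝ) ≤ α ^ (2 * z) := by
              have g1 : (j : ℝ) ≤ ((⌊α ^ (z + m0)⌋₊ : ℕ) : ℝ) := by exact_mod_cast hj.2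
              refine g1.trans ((Nat.floor_le (by positivity)).trans ?_)
              exact pow_le_pow_right₀ hα.le (by omega)
            have g1 := hEX (2 ^ i) h2 T (TS_prop S i) z (by
              calc 64 * 2 ^ (i + 2 - k1) = 2 ^ (6 + (i + 2 - k1)) := by rw [pow_add]; norm_num
                _ ≤ 2 ^ i := Nat.pow_le_pow_right (by norm_num) (by omega)) t (by
              rw [ht, pow_add _ i 2]; omega) j hj.1 hj2
            refine (mul_le_mul_of_nonneg_right g1 (by positivity)).trans (le_of_eq ?_)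
            have e : α ^ t = α ^ (t - z) * α ^ z := by
              rw [← pow_add]
              congr 1
              omega
            rw [e]
            field_simp
          refine (Finset.sum_le_card_nsmul _ _ _ hj).trans ?_
          rw [nsmul_eq_mul, ← ENNReal.ofReal_natCast, ← ENNReal.ofReal_mul (Nat.cast_nonneg _)]
          refine ENNReal.ofReal_le_ofReal ?_
          rw [Nat.card_Icc, Nat.add_sub_cancel]
          have g1 : ((⌊α ^ (z + m0)⌋₊ : ℕ) : ℝ) ≤ α ^ (z + m0) := Nat.floor_le (by positivity)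
          refine (mul_le_mul_of_nonneg_right g1 (by positivity)).trans (le_of_eq ?_)
          rw [pow_add]
          field_simp
        have hexp : Real.exp (-(c * √(Real.log ((2 ^ i : ℕ) : ℝ)))) ≤
            24 / (c ^ 4 * Real.log 2 ^ 2) * (1 / (i : ℝ) ^ 2) := by
          refine (exp_neg_le (by positivity)).trans (le_of_eq ?_)
          have e1 : Real.log ((2 ^ i : ℕ) : ℝ) = i * Real.log 2 := by
            push_cast; rw [Real.log_pow]
          have e2 : √(Real.log ((2 ^ i : ℕ) : ℝ)) ^ 4 = (i * Real.log 2) ^ 2 := by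
            rw [show (4 : ℕ) = 2 * 2 from rfl, pow_mul, Real.sq_sqrt hx0.le, e1]
          rw [mul_pow, e2]
          field_simp
        have hsub : {β : ℝ | p i β} ⊆ {β : ℝ | (α ^ m0)⁻¹ < β ∧ β ≤ α ^ m0 ∧
            (1 / (i : ℝ) ^ 2 + K * VT T / i < |mT α g z t T ⌊β * α ^ z⌋₊ - kr α * VT T|)} ∪
            {β : ℝ | (α ^ m0)⁻¹ < β ∧ β ≤ α ^ m0 ∧
            (√(Real.log ((2 ^ i : ℕ) : ℝ)) < ((hits α g T t ⌊β * α ^ t⌋₊).card : ℝ))} := by
          rintro β ⟨_, g1, g2, gA, g3⟩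
          unfold Gd at g3
          rw [not_and_or, not_le, not_and_or, not_le] at g3
          rcases g3 with g3 | g3 | g3
          · exact Or.inl ⟨g1, g2, g3⟩
          · rw [NBl_eq gA S] at g3
            exact Or.inr ⟨g1, g2, g3⟩
          · exact absurd gA g3
        calc volume {β : ℝ | p i β} ≤ _ := measure_mono hsub
          _ ≤ _ := measure_union_le _ _
          _ ≤ ENNReal.ofReal (1 / (i : ℝ) ^ 2) +
              ENNReal.ofReal (α ^ m0 * Real.exp (-(c * √(Real.log ((2 ^ i : ℕ) : ℝ))))) :=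
              add_le_add hA1 hB
          _ = ENNReal.ofReal (1 / (i : ℝ) ^ 2 +
              α ^ m0 * Real.exp (-(c * √(Real.log ((2 ^ i : ℕ) : ℝ))))) :=
              (ENNReal.ofReal_add (by positivity) (by positivity)).symm
          _ ≤ _ := by
              refine ENNReal.ofReal_le_ofReal ?_
              rw [hC', add_mul, one_mul, mul_assoc]
              have : (0 : ℝ) ≤ α ^ m0 := by positivity
              have := mul_le_mul_of_nonneg_left hexp this
              linarith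
      · have : {β : ℝ | p i β} = ∅ := by
          rw [Set.eq_empty_iff_forall_notMem]
          rintro β ⟨h1, _⟩
          exact hi h1
        rw [this, measure_empty]
        exact zero_le
    have hsum : ∑' i : ℕ, volume {β : ℝ | p i β} ≠ ⊤ := by
      refine ne_top_of_le_ne_top ?_ (ENNReal.tsum_le_tsum hmeas)
      have hs : Summable fun i : ℕ => C' * (1 / (i : ℝ) ^ 2) :=
        (Real.summable_one_div_nat_pow.2 (show 1 < 2 by norm_num)).mul_left _
      have hC'0 : 0 < C' := by positivity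
      rw [← ENNReal.ofReal_tsum_of_nonneg (fun i => by positivity) hs]
      exact ENNReal.ofReal_ne_top
    have hfr := measure_setOfPred_frequently_eq_zero hsum
    have hae1 : ∀ᵐ β : ℝ, ¬ ∃ᶠ i in atTop, p i β := by
      rw [ae_iff]
      simpa only [not_not] using hfr
    filter_upwards [hae1] with β hβ h1 h2
    rw [not_frequently] at hβ
    filter_upwards [hβ, eventually_ge_atTop i0] with i h3 h4 h5
    by_contra hcon
    exact h3 ⟨h4, h1, h2, h5, hcon⟩
  have hae' : ∀ᵐ β : ℝ, ∀ m0 : ℕ, (α ^ m0)⁻¹ < β → β ≤ α ^ m0 →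
      ∀ᶠ i : ℕ in atTop, Agr α g β i → Gd α g k1 K S β i := ae_all_iff.2 hae
  filter_upwards [hae', hA] with β hβ hβA hβ0
  obtain ⟨m0, hm1, hm2⟩ : ∃ m0 : ℕ, (α ^ m0)⁻¹ < β ∧ β ≤ α ^ m0 := by
    have ht : Tendsto (fun m : ℕ => α ^ m) atTop atTop := tendsto_pow_atTop_atTop_of_one_lt hα
    obtain ⟨m0, h1, h2⟩ := ((ht.eventually_ge_atTop β).and (ht.eventually_gt_atTop β⁻¹)).exists
    exact ⟨m0, by rw [inv_lt_comm₀ (by positivity) hβ0]; exact h2, h1⟩
  filter_upwards [hβ m0 hm1 hm2, hβA hβ0] with i h1 h2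
  exact h1 h2

end Pool.Agent.N176.GW
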