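import Mathlib
import Pool.Agent.N835.OW.LIL
import Pool.Agent.N176.GW.WIN

set_option autoImplicit false

/-!
# Real bases: the order of the law of the iterated logarithm (after the file `N835/OW/LIL.lean`
of helper835)
-/

namespace Pool.Agent.N176.GW

open Finset Filter Topology MeasureTheory
open Pool.Agent.H305R2 (roughPart)
open Pool.Agent.N176.OW (VT TS VS VP DP dl dl_nonneg VT_nonneg VS_step VS_nonneg VS_mono VT_bound DP_bound
  Par choose_s dev_up dev_low)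
open Pool.Agent.N835.OW (split_classes small_s final_ineq VP_le VP_nonneg thr)

lemma kr_pos {α : ℝ} (hα : 1 < α) : 0 < kr α := by
  unfold kr
  exact div_pos (Real.exp_pos _) (Real.log_pos hα)

/-- real bases, the order of the law of the iterated logarithm -/
def S_LIL (α : ℝ) (o : ℕ → ℝ) : Prop := ∃ C : ℝ, 0 < C ∧ ∀ S : Set ℕ,
  Tendsto (fun n => VS S n) atTop atTop → ∀ᵐ β : ℝ, 0 < β → ∀ᶠ n : ℕ in atTop,
    |(MB α o S β n : ℝ) - kr α * VS S n| ≤ C * √(VS S n * Real.log (Real.log (VS S n)))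

/-- the sum of the blocks -/
lemma MB_sum (α : ℝ) (o : ℕ → ℝ) (S : Set ℕ) (β : ℝ) (I J : ℕ) (h : I ≤ J) :
    (MB α o S β (2 ^ J) : ℝ) - kr α * VS S (2 ^ J) = (MB α o S β (2 ^ I) - kr α * VS S (2 ^ I)) +
      ∑ i ∈ Ico I J, ((NBl α o S β i : ℝ) - kr α * VT (TS S i)) := by
  induction J, h using Nat.le_induction with
  | base => simp
  | succ J hJ ih =>
    rw [Finset.sum_Ico_succ_top hJ, MB_step α o S β, VS_step]
    push_cast
    linarith

/-- the probability that some partial sum deviates -/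
lemma bad_vol {α : ℝ} (hα : 1 < α) {o : ℕ → ℝ} (hI : S_ITM α) {s1 C : ℝ} {P k1 : ℕ} {K C0 A : ℝ} (hk1 : 8 ≤ k1)
    (hK : 0 < K)
    (hC0 : 0 < C0) (hs1 : s1 ≤ 1 / 2) (hpar : Par (kr α) C (2 + 3 * (K * C0)) s1 A)
    (hBL : ∀ x ≥ P, ∀ T : Finset ℕ, (∀ p ∈ T, p.Prime ∧ x < p ∧ p ≤ 2 * x) → ∀ z : ℕ, 64 * z ≤ x →
      ∀ t : ℕ, 4 * x ≤ t → ∀ j : ℕ, 1 ≤ j → (j : ℝ) ≤ α ^ (2 * z) → ∀ δ : ℝ, 0 ≤ δ →
      |mT α o z t T j - kr α * VT T| ≤ δ → ∀ s : ℝ, |s| ≤ s1 →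
      ∑ n ∈ (cell α z t j).filter (fun n => ((hits α o T t n).card : ℝ) ≤ √(Real.log x)),
        (1 + s) ^ (hits α o T t n).card ≤
        Real.exp (s * (kr α * VT T) + |s| * δ + C * s ^ 2 * VT T + 1 / x) * α ^ (t - z))
    (hDP : ∀ (K : ℝ) (S : Set ℕ) (k1 a i : ℕ), 0 < K → 1 ≤ k1 → 1 ≤ a →
      DP K S k1 a i ≤ 2 + K * C0 * Real.log (VS S (2 ^ (a + i * k1)) + 3))
    (S : Set ℕ) {m0 a : ℕ} (ha1 : P ≤ 2 ^ a) (ha2 : k1 ≤ a) (ha3 : m0 ≤ 2 ^ (a + 2 - k1)) (j : ℕ) :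
    volume {β : ℝ | (α ^ m0)⁻¹ < β ∧ β ≤ α ^ m0 ∧ ∃ i : ℕ,
      VS S (2 ^ (a + i * k1)) ≤ 2 ^ (j + 1) ∧ (∀ l < i, Gd α o k1 K S β (a + l * k1)) ∧
      thr A j ≤ |(NP α o S β k1 a i : ℝ) - kr α * VP S k1 a i|} ≤
    ENNReal.ofReal (16 * α ^ m0 * (1 / ((j + 2 : ℕ) : ℝ) ^ 5)) := by
  have hb0 : (0 : ℝ) < α := by linarith
  set L := Real.log (j + 2) with hL
  have hjn : (0 : ℝ) ≤ j := Nat.cast_nonneg j
  have hL2 : 1 / 2 ≤ L := by
    have h1 : Real.log 2 ≤ L := Real.log_le_log (by norm_num) (by linarith)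
    have := Real.log_two_gt_d9
    linarith
  have hL0 : 0 < L := by linarith
  obtain ⟨s, hs0, hss1, hs2, hs3⟩ := choose_s hpar.hs1 hs1 (show (0 : ℝ) ≤ 2 ^ (j + 1) by positivity) hL0
  have hexpL : Real.exp (5 * L) = ((j + 2 : ℕ) : ℝ) ^ 5 := by
    rw [show (5 : ℝ) * L = ((5 : ℕ) : ℝ) * L by norm_num, Real.exp_nat_mul, hL, Real.exp_log (by linarith)]
    push_cast
    rfl
  have hsabs : |s| ≤ s1 := by rw [abs_of_pos hs0]; exact hss1
  have hsabs' : |(-s)| ≤ s1 := by rw [abs_neg]; exact hsabs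
  have hc1 := core hα hI hk1 hK hs1 hBL S ha1 ha2 ha3 hsabs (Real.exp_pos (5 * L))
  have hc2 := core hα hI hk1 hK hs1 hBL S ha1 ha2 ha3 hsabs' (Real.exp_pos (5 * L))
  refine (measure_mono ?_).trans ((measure_union_le _ _).trans ((add_le_add hc1 hc2).trans ?_))
  · rintro β ⟨h1, h2, i, h3, h4, h5⟩
    have hV0 := VP_nonneg S k1 a i
    have hVm : VP S k1 a i ≤ 2 ^ (j + 1) := (VP_le S (by omega) a i).trans h3
    have hD : s * DP K S k1 a i ≤ (2 + 3 * (K * C0)) * L := by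
      refine small_s hs0 (hss1.trans hs1) hL2 hs2 hK hC0 ?_
      refine (hDP K S k1 a i hK (by omega) (by omega)).trans ?_
      have hVS := VS_nonneg S (2 ^ (a + i * k1))
      have : Real.log (VS S (2 ^ (a + i * k1)) + 3) ≤ Real.log (2 ^ (j + 1) + 3) :=
        Real.log_le_log (by linarith) (by linarith)
      have := mul_le_mul_of_nonneg_left this (show 0 ≤ K * C0 by positivity)
      linarith
    unfold thr at h5
    rcases le_abs.1 h5 with h6 | h6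
    · left
      refine ⟨h1, h2, i, h4, ?_⟩
      exact dev_up hpar hs0 hss1 hL0 hV0 hVm hs2 hs3 hD (by linarith)
    · right
      refine ⟨h1, h2, i, h4, ?_⟩
      exact dev_low hpar hs0 hss1 hL0 hV0 hVm hs2 hs3 hD (by linarith)
  · rw [← ENNReal.ofReal_add (by positivity) (by positivity), hexpL]
    apply ENNReal.ofReal_le_ofReal
    apply le_of_eq
    ring

theorem lil {α : ℝ} (hα : 1 < α) {o : ℕ → ℝ} (hI : S_ITM α) (hAG : S_AGR α o) (hBL : S_BL α o) (hEX : S_EX α o)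
    (hGC : S_GC α o) : S_LIL α o := by
  classical
  obtain ⟨s1, C, hs1, hs12, hC, P, hBL⟩ := hBL
  obtain ⟨_, _, c, _, _, _, hc, P', hEX⟩ := hEX
  obtain ⟨k1, hk1, K, hK, hGC⟩ := hGC
  obtain ⟨C0, hC0, hDP⟩ := DP_bound
  obtain ⟨C1, hC1, hVT⟩ := VT_bound
  have hκ := kr_pos hα
  have hb0 : (0 : ℝ) < α := by linarith
  set A : ℝ := (10 + 2 * (2 + 3 * (K * C0)) + 2 * C + 4 * kr α) / s1 with hA
  have hA0 : 0 < A := by positivity
  have hpar : Par (kr α) C (2 + 3 * (K * C0)) s1 A := ⟨hκ, hC, by positivity, hs1, hs12, hA⟩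
  refine ⟨5 * k1 * A + 1, by positivity, fun S hS => ?_⟩
  have hgood := good_ae hα hAG (P := P') hk1 hc (fun x hx T hT z hz t ht j hj1 hj2 =>
    (hEX x hx T hT z hz t ht j hj1 hj2).2) hGC S
  -- Borel-Cantelli
  have hbc : ∀ m0 a : ℕ, P ≤ 2 ^ a → k1 ≤ a → m0 ≤ 2 ^ (a + 2 - k1) → ∀ᵐ β : ℝ,
      (α ^ m0)⁻¹ < β → β ≤ α ^ m0 → ∀ᶠ j : ℕ in atTop, ∀ i : ℕ,
      VS S (2 ^ (a + i * k1)) ≤ 2 ^ (j + 1) → (∀ l < i, Gd α o k1 K S β (a + l * k1)) →
      |(NP α o S β k1 a i : ℝ) - kr α * VP S k1 a i| ≤ thr A j := by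
    intro m0 a ha1 ha2 ha3
    set p : ℕ → ℝ → Prop := fun j β => (α ^ m0)⁻¹ < β ∧ β ≤ α ^ m0 ∧ ∃ i : ℕ,
      VS S (2 ^ (a + i * k1)) ≤ 2 ^ (j + 1) ∧ (∀ l < i, Gd α o k1 K S β (a + l * k1)) ∧
      thr A j ≤ |(NP α o S β k1 a i : ℝ) - kr α * VP S k1 a i| with hp
    have hmeas : ∀ j : ℕ, volume {β : ℝ | p j β} ≤
        ENNReal.ofReal (16 * α ^ m0 * (1 / ((j + 2 : ℕ) : ℝ) ^ 5)) := fun j =>
      bad_vol hα hI hk1 hK hC0 hs12 hpar hBL hDP S ha1 ha2 ha3 j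
    have hsum : ∑' j : ℕ, volume {β : ℝ | p j β} ≠ ⊤ := by
      refine ne_top_of_le_ne_top ?_ (ENNReal.tsum_le_tsum hmeas)
      have hs : Summable fun j : ℕ => 16 * α ^ m0 * (1 / ((j + 2 : ℕ) : ℝ) ^ 5) :=
        ((summable_nat_add_iff 2).2
          (Real.summable_one_div_nat_pow.2 (show 1 < 5 by norm_num))).mul_left _
      rw [← ENNReal.ofReal_tsum_of_nonneg (fun i => by positivity) hs]
      exact ENNReal.ofReal_ne_top
    have hfr := measure_setOfPred_frequently_eq_zero hsum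
    have hae1 : ∀ᵐ β : ℝ, ¬ ∃ᶠ i in atTop, p i β := by
      rw [ae_iff]
      simpa only [not_not] using hfr
    filter_upwards [hae1] with β hβ h1 h2
    rw [not_frequently] at hβ
    filter_upwards [hβ] with j h3 i h4 h5
    by_contra hcon
    exact h3 ⟨h1, h2, i, h4, h5, (not_le.1 hcon).le⟩
  have hbc' : ∀ᵐ β : ℝ, ∀ m0 a : ℕ, P ≤ 2 ^ a → k1 ≤ a → m0 ≤ 2 ^ (a + 2 - k1) →
      (α ^ m0)⁻¹ < β → β ≤ α ^ m0 → ∀ᶠ j : ℕ in atTop, ∀ i : ℕ,
      VS S (2 ^ (a + i * k1)) ≤ 2 ^ (j + 1) → (∀ l < i, Gd α o k1 K S β (a + l * k1)) →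
      |(NP α o S β k1 a i : ℝ) - kr α * VP S k1 a i| ≤ thr A j := by
    rw [ae_all_iff]
    intro m0
    rw [ae_all_iff]
    intro a
    by_cases h : P ≤ 2 ^ a ∧ k1 ≤ a ∧ m0 ≤ 2 ^ (a + 2 - k1)
    · filter_upwards [hbc m0 a h.1 h.2.1 h.2.2] with β hβ _ _ _
      exact hβ
    · refine Filter.Eventually.of_forall fun β h1 h2 h3 => ?_
      exact absurd ⟨h1, h2, h3⟩ h
  filter_upwards [hgood, hbc'] with β hg hβ hβ0
  obtain ⟨m0, hm1, hm2⟩ : ∃ m0 : ℕ, (α ^ m0)⁻¹ < β ∧ β ≤ α ^ m0 := by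
    have hb1 : (1 : ℝ) < α := hα
    have ht : Tendsto (fun m : ℕ => α ^ m) atTop atTop := tendsto_pow_atTop_atTop_of_one_lt hb1
    obtain ⟨m0, h1, h2⟩ := ((ht.eventually_ge_atTop β).and (ht.eventually_gt_atTop β⁻¹)).exists
    exact ⟨m0, by rw [inv_lt_comm₀ (by positivity) hβ0]; exact h2, h1⟩
  have hpow : Tendsto (fun i : ℕ => 2 ^ (i + 2 - k1)) atTop atTop := by
    refine (tendsto_pow_atTop_atTop_of_one_lt (by norm_num)).comp ?_
    exact tendsto_atTop_mono (fun i => show i - k1 ≤ i + 2 - k1 by omega) (tendsto_sub_atTop_nat k1)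
  have hpow2 : Tendsto (fun i : ℕ => 2 ^ i) atTop atTop := tendsto_pow_atTop_atTop_of_one_lt (by norm_num)
  obtain ⟨I, hI⟩ := ((hpow.eventually_ge_atTop m0).and ((hpow2.eventually_ge_atTop P).and
      ((eventually_ge_atTop k1).and (hg hβ0)))).exists_forall_of_atTop
  have hcl : ∀ᶠ j : ℕ in atTop, ∀ r ∈ range k1, ∀ i : ℕ,
      VS S (2 ^ (I + r + i * k1)) ≤ 2 ^ (j + 1) → 
      |(NP α o S β k1 (I + r) i : ℝ) - kr α * VP S k1 (I + r) i| ≤ thr A j := by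
    rw [Filter.eventually_all_finset]
    intro r _
    obtain ⟨h1, h2, h3, _⟩ := hI (I + r) (by omega)
    filter_upwards [hβ m0 (I + r) h2 h3 h1 hm1 hm2] with j hj i hi
    exact hj i hi (fun l _ => (hI _ (by omega)).2.2.2)
  obtain ⟨j0, hj0⟩ := eventually_atTop.1 hcl
  set c1 : ℝ := (k1 + 1) * C1 with hc1
  have hc10 : 0 ≤ c1 := by positivity
  set cst : ℝ := |(MB α o S β (2 ^ I) : ℝ) - kr α * VS S (2 ^ I)| + kr α * C1 with hcst
  filter_upwards [hS.eventually_ge_atTop (Real.exp 10), hS.eventually_ge_atTop c1,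
    hS.eventually_ge_atTop (cst ^ 2), hS.eventually_ge_atTop (2 ^ j0), eventually_gt_atTop (2 ^ I),
    eventually_gt_atTop 1] with n hn1 hn2 hn3 hn4 hn5 hn6
  set V := VS S n with hV
  have hV1 : 1 ≤ V + c1 := by
    have : (1 : ℝ) ≤ Real.exp 10 := Real.one_le_exp (by norm_num)
    linarith
  obtain ⟨j, hj1, hj2⟩ := exists_nat_pow_near hV1 (show (1 : ℝ) < 2 by norm_num)
  have hjj0 : j0 ≤ j := by
    have h1 : (2 : ℝ) ^ j0 < 2 ^ (j + 1) := by linarith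
    have h2 := (pow_lt_pow_iff_right₀ (show (1 : ℝ) < 2 by norm_num)).1 h1
    omega
  -- the dyadic exponent
  obtain ⟨J, hJ1, hJ2⟩ : ∃ J : ℕ, 2 ^ J < n ∧ n ≤ 2 ^ (J + 1) := by
    have h1 := Nat.lt_pow_succ_log_self (show 1 < 2 by norm_num) (n - 1)
    have h2 := Nat.pow_log_le_self 2 (show n - 1 ≠ 0 by omega)
    exact ⟨Nat.log 2 (n - 1), by omega, by
      have : Nat.log 2 (n - 1) + 1 = (Nat.log 2 (n - 1)).succ := rfl
      rw [this]; omega⟩
  have hIJ : I ≤ J := by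
    have h1 : 2 ^ I < 2 ^ (J + 1) := by omega
    have h2 := (Nat.pow_lt_pow_iff_right (show 1 < 2 by norm_num)).1 h1
    omega
  have hVSadd : ∀ r : ℕ, VS S (2 ^ (J + r)) ≤ VS S (2 ^ J) + r * C1 := by
    intro r
    induction r with
    | zero => simp
    | succ r ih =>
      rw [← Nat.add_assoc, VS_step]
      have := hVT S (J + r)
      push_cast
      linarith
  have hVJ : VS S (2 ^ J) ≤ V := VS_mono S hJ1.le
  -- the bound for the two dyadic numbers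
  have hdy : ∀ J' : ℕ, J ≤ J' → J' ≤ J + 1 →
      |(MB α o S β (2 ^ J') : ℝ) - kr α * VS S (2 ^ J')| ≤
        |(MB α o S β (2 ^ I) : ℝ) - kr α * VS S (2 ^ I)| + k1 * thr A j := by
    intro J' h1 h2
    obtain ⟨cn, hcn1, hcn2⟩ := split_classes k1 I J' (by omega) (hIJ.trans h1)
    rw [MB_sum α o S β I J' (hIJ.trans h1), hcn2]
    refine (abs_add_le _ _).trans ?_
    refine add_le_add le_rfl ?_
    refine (Finset.abs_sum_le_sum_abs _ _).trans ?_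
    have h3 : ∀ r ∈ range k1, |∑ l ∈ range (cn r), ((NBl α o S β (I + r + l * k1) : ℝ) -
        kr α * VT (TS S (I + r + l * k1)))| ≤ thr A j := by
      intro r hr
      have h4 : ∑ l ∈ range (cn r), ((NBl α o S β (I + r + l * k1) : ℝ) -
        kr α * VT (TS S (I + r + l * k1))) =
          (NP α o S β k1 (I + r) (cn r) : ℝ) - kr α * VP S k1 (I + r) (cn r) := by
        unfold NP VP
        rw [Finset.sum_sub_distrib, Finset.mul_sum]
        push_cast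
        rfl
      rw [h4]
      refine hj0 j hjj0 r hr (cn r) ?_
      have h5 := hcn1 r (mem_range.1 hr)
      have h6 : VS S (2 ^ (I + r + cn r * k1)) ≤ VS S (2 ^ (J + (k1 + 1))) := by
        apply VS_mono
        apply Nat.pow_le_pow_right (by norm_num)
        omega
      have h7 := hVSadd (k1 + 1)
      push_cast at h7
      have h8 : V + c1 ≤ 2 ^ (j + 1) := hj2.le
      rw [hc1] at h8
      linarith
    refine (Finset.sum_le_card_nsmul _ _ _ h3).trans (le_of_eq ?_)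
    rw [card_range, nsmul_eq_mul]
  have hd1 := hdy J le_rfl (by omega)
  have hd2 := hdy (J + 1) (by omega) le_rfl
  have hM1 : (MB α o S β (2 ^ J) : ℝ) ≤ MB α o S β n := by exact_mod_cast MB_mono α o S β hJ1.le
  have hM2 : (MB α o S β n : ℝ) ≤ MB α o S β (2 ^ (J + 1)) := by exact_mod_cast MB_mono α o S β hJ2
  have hV2 : V ≤ VS S (2 ^ (J + 1)) := VS_mono S hJ2
  have hV3 : VS S (2 ^ (J + 1)) ≤ VS S (2 ^ J) + C1 := by
    rw [VS_step]
    have := hVT S J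
    linarith
  have hfin := final_ineq (V := V) (c1 := c1) (cst := cst) (k1 := k1) (j := j) hA0 hc10 rfl hn1 hn2 hn3 hj1
  have e : k1 * thr A j = k1 * (A * (√(2 ^ (j + 1) * Real.log (j + 2)) + Real.log (j + 2))) := rfl
  rw [← e] at hfin
  refine le_trans ?_ hfin
  rw [abs_le] at hd1 hd2 ⊢
  have g1 : kr α * V ≤ kr α * (VS S (2 ^ J) + C1) := mul_le_mul_of_nonneg_left (hV2.trans hV3) hκ.le
  have g2 : kr α * VS S (2 ^ (J + 1)) ≤ kr α * (V + C1) :=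
    mul_le_mul_of_nonneg_left (by linarith) hκ.le
  rw [hcst]
  constructor
  · linarith [hd1.1]
  · linarith [hd2.2]

end Pool.Agent.N176.GW
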