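import Mathlib
import Pool.Agent.N176.OW.Univ
import Pool.Agent.N176.GW.LIL

set_option autoImplicit false

/-!
# Real bases: the case of all primes
-/

namespace Pool.Agent.N176.GW

open Finset Filter Topology MeasureTheory
open Pool.Agent.H305R2 (roughPart)
open Pool.Agent.N176.OW (VT TS VS VP DP dl dl_nonneg VT_nonneg VS_step VS_nonneg VS_mono VT_bound DP_bound
  Par choose_s dev_up dev_low)
open Pool.Agent.N176.OW (VS_univ VS_univ_tendsto)

theorem win_univ {α : ℝ} (hα : 1 < α) {o : ℕ → ℝ} (h : S_WIN α o) : ∃ C : ℝ, 0 < C ∧ ∀ᵐ β : ℝ, 0 < β →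
    ∀ᶠ n : ℕ in atTop, ∀ n' ≥ n,
    |((MB α o Set.univ β n' : ℝ) - MB α o Set.univ β n) - kr α * Real.log ((n' : ℝ) / n)| ≤
      C * (√(Real.log ((n' : ℝ) / n) * Real.log (Real.log n')) + Real.log (Real.log n')) := by
  obtain ⟨C, hC, hw⟩ := h
  obtain ⟨C1, hC1, hV⟩ := VS_univ
  have hk : 0 ≤ kr α := (kr_pos hα).le
  refine ⟨C * (4 + 2 * C1) + 2 * kr α * C1, by positivity, ?_⟩
  filter_upwards [hw Set.univ VS_univ_tendsto] with β hβ hβ0
  have hlog : Tendsto (fun n : ℕ => Real.log n) atTop atTop :=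
    Real.tendsto_log_atTop.comp tendsto_natCast_atTop_atTop
  have hev : ∀ᶠ n : ℕ in atTop, 1 ≤ n ∧ C1 + 3 ≤ Real.log n ∧ 1 ≤ Real.log (Real.log n) := by
    filter_upwards [eventually_ge_atTop 1, hlog.eventually_ge_atTop (C1 + 3),
      (Real.tendsto_log_atTop.comp hlog).eventually_ge_atTop 1] with n h1 h2 h3
    exact ⟨h1, h2, h3⟩
  obtain ⟨n0, hn0⟩ := eventually_atTop.1 hev
  filter_upwards [hβ hβ0, eventually_ge_atTop n0] with n hn hnn n' hnn'
  obtain ⟨a1, a2, a3⟩ := hn0 n hnn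
  obtain ⟨b1, b2, b3⟩ := hn0 n' (hnn.trans hnn')
  have hmain := hn n' hnn'
  set L := Real.log (Real.log n') with hL
  have hn1 : (1 : ℝ) ≤ n := by exact_mod_cast a1
  have hn1' : (1 : ℝ) ≤ n' := by exact_mod_cast b1
  have hnn'r : (n : ℝ) ≤ n' := by exact_mod_cast hnn'
  have hR : Real.log ((n' : ℝ) / n) = Real.log n' - Real.log n :=
    Real.log_div (by linarith) (by linarith)
  set R := Real.log ((n' : ℝ) / n) with hRdef
  have hR0 : 0 ≤ R := by
    rw [hR]
    have := Real.log_le_log (by linarith) hnn'r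
    linarith
  set ΔV := VS Set.univ n' - VS Set.univ n with hΔV
  have hd := abs_le.1 (hV n a1)
  have hd' := abs_le.1 (hV n' b1)
  have hΔ1 : ΔV ≤ R + 2 * C1 := by rw [hΔV, hR]; linarith [hd.1, hd'.2]
  have hΔ2 : R - 2 * C1 ≤ ΔV := by rw [hΔV, hR]; linarith [hd.2, hd'.1]
  have hΔ0 : 0 ≤ ΔV := by
    have := VS_mono Set.univ hnn'
    rw [hΔV]; linarith
  -- the logarithm of the weight
  have hVpos : 0 < VS Set.univ n' := by linarith [hd'.1]
  have hLV : Real.log (VS Set.univ n') ≤ 2 * L := by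
    have h1 : VS Set.univ n' ≤ (Real.log n') ^ 2 := by nlinarith [hd'.2]
    calc Real.log (VS Set.univ n') ≤ Real.log ((Real.log n') ^ 2) := Real.log_le_log hVpos h1
      _ = 2 * L := by rw [Real.log_pow]; push_cast; rfl
  have hLV0 : 0 ≤ Real.log (VS Set.univ n') := Real.log_nonneg (by linarith [hd'.1])
  have hsq : √(ΔV * Real.log (VS Set.univ n')) ≤ 2 * √(R * L) + 2 * (C1 + 1) * L := by
    have h1 : ΔV * Real.log (VS Set.univ n') ≤ (R + 2 * C1) * (2 * L) :=
      mul_le_mul hΔ1 hLV hLV0 (by linarith)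
    have h2 : (R + 2 * C1) * (2 * L) ≤ (2 * √(R * L) + 2 * (C1 + 1) * L) ^ 2 := by
      have h3 : √(R * L) ^ 2 = R * L := Real.sq_sqrt (by positivity)
      have h4 : 0 ≤ √(R * L) := Real.sqrt_nonneg _
      have h5 : (2 * √(R * L) + 2 * (C1 + 1) * L) ^ 2 = 4 * (R * L) +
          8 * (C1 + 1) * (√(R * L) * L) + 4 * (C1 + 1) ^ 2 * L ^ 2 := by
        have e1 : (2 * √(R * L) + 2 * (C1 + 1) * L) ^ 2 = 4 * √(R * L) ^ 2 +
          8 * (C1 + 1) * (√(R * L) * L) + 4 * (C1 + 1) ^ 2 * L ^ 2 := by ring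
        rw [e1, h3]
      rw [h5]
      have h6 : 0 ≤ √(R * L) * L := by positivity
      have h7 : 0 ≤ (C1 + 1) * (√(R * L) * L) := by positivity
      have h8 : L ≤ L ^ 2 := by nlinarith
      have h9 : 0 ≤ R * L := by positivity
      have h10 : C1 * L ≤ (C1 + 1) ^ 2 * L ^ 2 := by
        have : C1 ≤ (C1 + 1) ^ 2 := by nlinarith
        exact mul_le_mul this h8 (by linarith) (by positivity)
      nlinarith
    calc √(ΔV * Real.log (VS Set.univ n')) ≤ √((2 * √(R * L) + 2 * (C1 + 1) * L) ^ 2) :=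
          Real.sqrt_le_sqrt (h1.trans h2)
      _ = _ := Real.sqrt_sq (by positivity)
  have habs : |((MB α o Set.univ β n' : ℝ) - MB α o Set.univ β n) - kr α * R| ≤
      |((MB α o Set.univ β n' : ℝ) - MB α o Set.univ β n) - kr α * ΔV| + kr α * (2 * C1) := by
    have e : ((MB α o Set.univ β n' : ℝ) - MB α o Set.univ β n) - kr α * R =
      (((MB α o Set.univ β n' : ℝ) - MB α o Set.univ β n) - kr α * ΔV) + kr α * (ΔV - R) := by ring
    rw [e]
    refine (abs_add_le _ _).trans ?_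
    rw [abs_mul, abs_of_nonneg hk]
    have : |ΔV - R| ≤ 2 * C1 := abs_le.2 ⟨by linarith, by linarith⟩
    have := mul_le_mul_of_nonneg_left this hk
    linarith
  have h1 : kr α * (2 * C1) ≤ 2 * kr α * C1 * L := by
    have : 0 ≤ kr α * (2 * C1) := by positivity
    nlinarith
  have h2 : 0 ≤ √(R * L) := Real.sqrt_nonneg _
  have h3 := mul_le_mul_of_nonneg_left (add_le_add hsq hLV) hC.le
  have h4 : 0 ≤ kr α * C1 * √(R * L) := by positivity
  have h5 : 0 ≤ C * √(R * L) := by positivity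
  have h6 : 0 ≤ C * C1 * √(R * L) := by positivity
  calc _ ≤ _ := habs
    _ ≤ C * (√(ΔV * Real.log (VS Set.univ n')) + Real.log (VS Set.univ n')) + 2 * kr α * C1 * L :=
        add_le_add hmain h1
    _ ≤ C * (2 * √(R * L) + 2 * (C1 + 1) * L + 2 * L) + 2 * kr α * C1 * L := by linarith
    _ ≤ _ := by nlinarith

theorem lil_univ {α : ℝ} (hα : 1 < α) {o : ℕ → ℝ} (h : S_LIL α o) : ∃ C : ℝ, 0 < C ∧ ∀ᵐ β : ℝ, 0 < β →
    ∀ᶠ n : ℕ in atTop, |(MB α o Set.univ β n : ℝ) - kr α * Real.log n| ≤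
      C * √(Real.log n * Real.log (Real.log (Real.log n))) := by
  obtain ⟨C, hC, hw⟩ := h
  obtain ⟨C1, hC1, hV⟩ := VS_univ
  have hk : 0 ≤ kr α := (kr_pos hα).le
  refine ⟨2 * C + kr α * C1, by positivity, ?_⟩
  filter_upwards [hw Set.univ VS_univ_tendsto] with β hβ hβ0
  have hlog : Tendsto (fun n : ℕ => Real.log n) atTop atTop :=
    Real.tendsto_log_atTop.comp tendsto_natCast_atTop_atTop
  have hll := Real.tendsto_log_atTop.comp hlog
  have hlll := Real.tendsto_log_atTop.comp hll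
  filter_upwards [hβ hβ0, eventually_ge_atTop 1, hlog.eventually_ge_atTop (C1 + 3),
    hll.eventually_ge_atTop 2, hlll.eventually_ge_atTop 1] with n hn a1 a2 a3 a4
  simp only [Function.comp] at a3 a4
  set l1 := Real.log (n : ℝ) with hl1
  have hd := abs_le.1 (hV n a1)
  set V := VS Set.univ n with hVdef
  have hV2 : V ≤ 2 * l1 := by linarith [hd.2]
  have hV3 : 3 ≤ V := by linarith [hd.1]
  have hlogV0 : 1 ≤ Real.log V := by
    rw [Real.le_log_iff_exp_le (by linarith)]
    have := Real.exp_one_lt_d9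
    linarith
  have hl10 : 0 < l1 := by linarith
  have hlogV : Real.log V ≤ Real.log l1 ^ 2 := by
    calc Real.log V ≤ Real.log (2 * l1) := Real.log_le_log (by linarith) hV2
      _ = Real.log 2 + Real.log l1 := Real.log_mul (by norm_num) hl10.ne'
      _ ≤ Real.log l1 ^ 2 := by
          have := Real.log_two_lt_d9
          nlinarith
  have hll2 : Real.log (Real.log V) ≤ 2 * Real.log (Real.log l1) := by
    calc Real.log (Real.log V) ≤ Real.log (Real.log l1 ^ 2) := Real.log_le_log (by linarith) hlogV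
      _ = _ := by rw [Real.log_pow]; push_cast; rfl
  have hll0 : 0 ≤ Real.log (Real.log V) := Real.log_nonneg hlogV0
  have hsq : √(V * Real.log (Real.log V)) ≤ 2 * √(l1 * Real.log (Real.log l1)) := by
    have h1 : V * Real.log (Real.log V) ≤ (2 * l1) * (2 * Real.log (Real.log l1)) :=
      mul_le_mul hV2 hll2 hll0 (by linarith)
    calc √(V * Real.log (Real.log V)) ≤ √((2 * l1) * (2 * Real.log (Real.log l1))) :=
          Real.sqrt_le_sqrt h1
      _ = √(2 ^ 2 * (l1 * Real.log (Real.log l1))) := by congr 1; ring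
      _ = 2 * √(l1 * Real.log (Real.log l1)) := by
          rw [Real.sqrt_mul (by norm_num), Real.sqrt_sq (by norm_num)]
  have h1 : 1 ≤ √(l1 * Real.log (Real.log l1)) := by
    rw [Real.one_le_sqrt]
    nlinarith
  have e : (MB α o Set.univ β n : ℝ) - kr α * l1 = ((MB α o Set.univ β n : ℝ) - kr α * V) +
      kr α * (V - l1) := by ring
  rw [e]
  refine (abs_add_le _ _).trans ?_
  rw [abs_mul, abs_of_nonneg hk]
  have h2 := mul_le_mul_of_nonneg_left (hV n a1) hk
  have h3 := mul_le_mul_of_nonneg_left hsq hC.le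
  have h4 : 0 ≤ kr α * C1 := by positivity
  nlinarith

end Pool.Agent.N176.GW
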