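import Mathlib
import Pool.Agent.N176.GW.Univ
import Pool.Agent.N176.SH.Pairs

set_option autoImplicit false

/-!
# Real bases: perturbations tending to zero
-/

namespace Pool.Agent.N176.GW

open Finset Filter Topology MeasureTheory
open Pool.Agent.H305R2 (roughPart)
open Pool.Agent.N176.OW (VS VS_mono)
open Pool.Agent.N176.SH (loglog_nonneg)

lemma near_int_vol {R : ℝ} (hR : 0 ≤ R) {a ε : ℝ} (ha : 1 ≤ a) (hε : 0 ≤ ε) :
    volume {β : ℝ | 0 < β ∧ β ≤ R ∧ ∃ v : ℤ, |β * a - v| < ε} ≤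
      ENNReal.ofReal ((R + 4 + 2 * ε) * (2 * ε)) := by
  have ha0 : 0 < a := by linarith
  set N : ℕ := ⌊R * a + ε⌋₊ + 1 with hN
  set k : ℕ := ⌈ε⌉₊ with hk
  have hsub : {β : ℝ | 0 < β ∧ β ≤ R ∧ ∃ v : ℤ, |β * a - v| < ε} ⊆
      ⋃ v ∈ Finset.Ioo (-(k : ℤ) - 1) N, Set.Icc (((v : ℤ) - ε) / a) ((v + ε) / a) := by
    rintro β ⟨h1, h2, v, h3⟩
    obtain ⟨h4, h5⟩ := abs_lt.1 h3
    rw [Set.mem_iUnion₂]
    refine ⟨v, ?_, ?_⟩
    · rw [Finset.mem_Ioo]
      constructor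
      · have h6 : 0 < β * a := by positivity
        have h7 : (ε : ℝ) ≤ k := Nat.le_ceil ε
        have h8 : -(k : ℝ) < v := by linarith
        have h9 : -(k : ℤ) < v := by exact_mod_cast h8
        omega
      · have h6 : β * a ≤ R * a := mul_le_mul_of_nonneg_right h2 ha0.le
        have h7 := Nat.lt_floor_add_one (R * a + ε)
        have h8 : (v : ℝ) < N := by
          rw [hN]
          push_cast
          linarith
        exact_mod_cast h8
    · rw [Set.mem_Icc, div_le_iff₀ ha0, le_div_iff₀ ha0]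
      constructor <;> linarith
  refine (measure_mono hsub).trans ((measure_biUnion_finset_le _ _).trans ?_)
  have h1 : ∀ v ∈ Finset.Ioo (-(k : ℤ) - 1) N,
      volume (Set.Icc (((v : ℤ) - ε) / a) ((v + ε) / a)) ≤ ENNReal.ofReal (2 * ε / a) := by
    intro v _
    rw [Real.volume_Icc]
    refine ENNReal.ofReal_le_ofReal (le_of_eq ?_)
    field_simp
    ring
  refine (Finset.sum_le_card_nsmul _ _ _ h1).trans ?_
  rw [nsmul_eq_mul, ← ENNReal.ofReal_natCast, ← ENNReal.ofReal_mul (Nat.cast_nonneg _)]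
  refine ENNReal.ofReal_le_ofReal ?_
  rw [Int.card_Ioo]
  have h2 : ((((N : ℤ) - (-(k : ℤ) - 1) - 1).toNat : ℕ) : ℝ) ≤ (R + 4 + 2 * ε) * a := by
    have h3 : ((N : ℤ) - (-(k : ℤ) - 1) - 1).toNat = N + k := by omega
    rw [h3, hN]
    push_cast
    have h4 : ((⌊R * a + ε⌋₊ : ℕ) : ℝ) ≤ R * a + ε := Nat.floor_le (by positivity)
    have h5 : ((k : ℕ) : ℝ) < ε + 1 := Nat.ceil_lt_add_one hε
    nlinarith
  calc _ ≤ (R + 4 + 2 * ε) * a * (2 * ε / a) := mul_le_mul_of_nonneg_right h2 (by positivity)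
    _ = _ := by field_simp

/-- the perturbation does not change the integer parts -/
theorem floor_ae {α : ℝ} (hα : 1 < α) : ∀ᵐ β : ℝ, 0 < β → ∀ ψ : ℝ, |ψ| < 1 → ∀ B : ℝ,
    ∀ᶠ p : ℕ in atTop, ⌊β * α ^ p + B * ψ ^ p⌋₊ = ⌊β * α ^ p + 0⌋₊ := by
  have hae : ∀ R : ℕ, ∀ᵐ β : ℝ, 0 < β → β ≤ R →
      ∀ᶠ p : ℕ in atTop, ∀ v : ℤ, 1 / (p : ℝ) ^ 2 ≤ |β * α ^ p - v| := by
    intro R
    set q : ℕ → ℝ → Prop := fun p β => 0 < β ∧ β ≤ R ∧ ∃ v : ℤ, |β * α ^ p - v| < 1 / (p : ℝ) ^ 2 with hq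
    have hmeas : ∀ p : ℕ, volume {β : ℝ | q p β} ≤
        ENNReal.ofReal ((2 * (R + 6) : ℝ) * (1 / (p : ℝ) ^ 2)) := by
      intro p
      rcases Nat.eq_zero_or_pos p with h0 | h0
      · have : {β : ℝ | q p β} = ∅ := by
          rw [Set.eq_empty_iff_forall_notMem]
          rintro β ⟨_, _, v, hv⟩
          rw [h0] at hv
          simp at hv
          exact absurd hv (not_lt.2 (abs_nonneg _))
        rw [this, measure_empty]
        exact zero_le
      · refine (near_int_vol (Nat.cast_nonneg R) (one_le_pow₀ hα.le) (by positivity)).trans ?_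
        refine ENNReal.ofReal_le_ofReal ?_
        have h1 : 1 / (p : ℝ) ^ 2 ≤ 1 := by
          rw [div_le_one (by positivity)]
          exact one_le_pow₀ (by exact_mod_cast h0)
        have h2 : 0 ≤ 1 / (p : ℝ) ^ 2 := by positivity
        have h3 : (0 : ℝ) ≤ R := Nat.cast_nonneg R
        nlinarith
    have hsum : ∑' p : ℕ, volume {β : ℝ | q p β} ≠ ⊤ := by
      refine ne_top_of_le_ne_top ?_ (ENNReal.tsum_le_tsum hmeas)
      have hs : Summable fun i : ℕ => (2 * (R + 6) : ℝ) * (1 / (i : ℝ) ^ 2) :=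
        (Real.summable_one_div_nat_pow.2 (show 1 < 2 by norm_num)).mul_left _
      rw [← ENNReal.ofReal_tsum_of_nonneg (fun i => by positivity) hs]
      exact ENNReal.ofReal_ne_top
    have hfr := measure_setOfPred_frequently_eq_zero hsum
    have hae1 : ∀ᵐ β : ℝ, ¬ ∃ᶠ i in atTop, q i β := by
      rw [ae_iff]
      simpa only [not_not] using hfr
    filter_upwards [hae1] with β hβ h1 h2
    rw [not_frequently] at hβ
    filter_upwards [hβ] with p h3 v
    by_contra hcon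
    exact h3 ⟨h1, h2, v, not_le.1 hcon⟩
  filter_upwards [ae_all_iff.2 hae] with β hβ h0 ψ hψ B
  obtain ⟨R, hR⟩ := exists_nat_ge β
  have hlim : Tendsto (fun p : ℕ => |B| * ((p : ℝ) ^ 2 * |ψ| ^ p)) atTop (𝓝 (|B| * 0)) :=
    (tendsto_pow_const_mul_const_pow_of_lt_one 2 (abs_nonneg ψ) hψ).const_mul _
  rw [mul_zero] at hlim
  filter_upwards [hβ R h0 hR, hlim.eventually_lt_const (show (0 : ℝ) < 1 by norm_num),
    eventually_ge_atTop 1] with p h1 h2 h3
  have hp : (0 : ℝ) < (p : ℝ) ^ 2 := by positivity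
  have h4 : |B * ψ ^ p| < 1 / (p : ℝ) ^ 2 := by
    rw [lt_div_iff₀ hp, abs_mul, abs_pow]
    linarith [mul_assoc |B| (|ψ| ^ p) ((p : ℝ) ^ 2), mul_comm (|ψ| ^ p) ((p : ℝ) ^ 2),
      mul_assoc |B| ((p : ℝ) ^ 2) (|ψ| ^ p)]
  set x := β * α ^ p with hx
  have hfl : ⌊x + B * ψ ^ p⌋ = ⌊x + 0⌋ := by
    rw [add_zero, Int.floor_eq_iff]
    have h5 := h1 ⌊x⌋
    have h6 := h1 (⌊x⌋ + 1)
    have h7 := Int.floor_le x
    have h8 := Int.lt_floor_add_one x
    rw [abs_of_nonneg (by linarith)] at h5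
    rw [abs_of_neg (by push_cast; linarith)] at h6
    push_cast at h6
    obtain ⟨h9, h10⟩ := abs_lt.1 h4
    constructor <;> linarith
  rw [← Int.floor_toNat, ← Int.floor_toNat, hfl]

/-- the two counting functions differ by a constant -/
lemma MB_diff (α : ℝ) {β : ℝ} {g g' : ℕ → ℝ} {P : ℕ}
    (h : ∀ p ≥ P, ⌊β * α ^ p + g p⌋₊ = ⌊β * α ^ p + g' p⌋₊) (S : Set ℕ) :
    ∃ e : ℝ, ∀ n ≥ P, (MB α g S β n : ℝ) = MB α g' S β n + e := by
  classical
  set f : ℕ → ℝ := fun p => if p.Prime ∧ p ∈ S ∧ (roughPart p ⌊β * α ^ p + g p⌋₊).Prime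
    then 1 else 0 with hf
  set f' : ℕ → ℝ := fun p => if p.Prime ∧ p ∈ S ∧ (roughPart p ⌊β * α ^ p + g' p⌋₊).Prime
    then 1 else 0 with hf'
  refine ⟨∑ p ∈ range P, (f p - f' p), fun n hn => ?_⟩
  have h1 : (MB α g S β n : ℝ) = ∑ p ∈ range (n + 1), f p := by
    unfold MB
    rw [Finset.card_filter]
    push_cast
    rfl
  have h2 : (MB α g' S β n : ℝ) = ∑ p ∈ range (n + 1), f' p := by
    unfold MB
    rw [Finset.card_filter]
    push_cast
    rfl
  have h3 : ∑ p ∈ range (n + 1), (f p - f' p) = ∑ p ∈ range P, (f p - f' p) := by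
    symm
    refine Finset.sum_subset (Finset.range_mono (by omega)) fun p _ hp => ?_
    rw [mem_range, not_lt] at hp
    simp only [hf, hf']
    rw [h p hp, sub_self]
  rw [Finset.sum_sub_distrib] at h3
  rw [h1, h2]
  linarith

theorem fin_univ {α : ℝ} (hα : 1 < α) (hW : S_WIN α (fun _ => 0)) (hL : S_LIL α (fun _ => 0))
    {ψ : ℝ} (hψ : |ψ| < 1) : ∃ C : ℝ, ∀ᵐ β : ℝ, 0 < β → ∀ B : ℝ,
      (∀ᶠ n : ℕ in atTop, ∀ n' ≥ n,
        |((MB α (fun p => B * ψ ^ p) Set.univ β n' : ℝ) - MB α (fun p => B * ψ ^ p) Set.univ β n) -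
          kr α * Real.log ((n' : ℝ) / n)| ≤
          C * (√(Real.log ((n' : ℝ) / n) * Real.log (Real.log n')) + Real.log (Real.log n'))) ∧
      (∀ᶠ n : ℕ in atTop, |(MB α (fun p => B * ψ ^ p) Set.univ β n : ℝ) - kr α * Real.log n| ≤
        C * √(Real.log n * Real.log (Real.log (Real.log n)))) := by
  obtain ⟨C1, hC1, w1⟩ := win_univ hα hW
  obtain ⟨C2, hC2, w2⟩ := lil_univ hα hL
  refine ⟨max C1 (C2 + 1), ?_⟩
  filter_upwards [w1, w2, floor_ae hα] with β w1 w2 w3 hβ B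
  obtain ⟨P, hP⟩ := eventually_atTop.1 (w3 hβ ψ hψ B)
  obtain ⟨e, he⟩ := MB_diff α (g := fun p => B * ψ ^ p) (g' := fun _ => 0) hP Set.univ
  constructor
  · filter_upwards [w1 hβ, eventually_ge_atTop 16, eventually_ge_atTop P] with n hn hn16 hnP n' hnn'
    rw [he n hnP, he n' (hnP.trans hnn'), add_sub_add_right_eq_sub]
    refine (hn n' hnn').trans (mul_le_mul_of_nonneg_right (le_max_left _ _) ?_)
    have := loglog_nonneg hn16 hnn'
    positivity
  · have hl1 : Tendsto (fun n : ℕ => Real.log (n : ℝ)) atTop atTop :=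
      Real.tendsto_log_atTop.comp tendsto_natCast_atTop_atTop
    have hl2 : Tendsto (fun n : ℕ => Real.log (Real.log (n : ℝ))) atTop atTop :=
      Real.tendsto_log_atTop.comp hl1
    have hl3 : Tendsto (fun n : ℕ => Real.log (Real.log (Real.log (n : ℝ)))) atTop atTop :=
      Real.tendsto_log_atTop.comp hl2
    filter_upwards [w2 hβ, eventually_ge_atTop P, hl1.eventually_ge_atTop (e ^ 2 + 1),
      hl3.eventually_ge_atTop 1] with n hn hn2 hn3 hn4
    rw [he n hn2]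
    have h3 : |e| ≤ √(Real.log n * Real.log (Real.log (Real.log n))) := by
      refine Real.le_sqrt_of_sq_le ?_
      rw [sq_abs]
      nlinarith [sq_nonneg e]
    have h4 : |(MB α (fun _ => 0) Set.univ β n : ℝ) + e - kr α * Real.log n| ≤
        |(MB α (fun _ => 0) Set.univ β n : ℝ) - kr α * Real.log n| + |e| := by
      have : (MB α (fun _ => 0) Set.univ β n : ℝ) + e - kr α * Real.log n =
        ((MB α (fun _ => 0) Set.univ β n : ℝ) - kr α * Real.log n) + e := by ring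
      rw [this]
      exact abs_add_le _ _
    have h5 := mul_le_mul_of_nonneg_right (le_max_right C1 (C2 + 1)) (Real.sqrt_nonneg
      (Real.log n * Real.log (Real.log (Real.log n))))
    nlinarith

theorem fin_set {α : ℝ} (hα : 1 < α) (hW : S_WIN α (fun _ => 0)) (hL : S_LIL α (fun _ => 0))
    {ψ : ℝ} (hψ : |ψ| < 1) : ∃ C : ℝ, ∀ S : Set ℕ, Tendsto (fun n => VS S n) atTop atTop →
      ∀ᵐ β : ℝ, 0 < β → ∀ B : ℝ,
      (∀ᶠ n : ℕ in atTop, ∀ n' ≥ n,
        |((MB α (fun p => B * ψ ^ p) S β n' : ℝ) - MB α (fun p => B * ψ ^ p) S β n) -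
          kr α * (VS S n' - VS S n)| ≤
          C * (√((VS S n' - VS S n) * Real.log (VS S n')) + Real.log (VS S n'))) ∧
      (∀ᶠ n : ℕ in atTop, |(MB α (fun p => B * ψ ^ p) S β n : ℝ) - kr α * VS S n| ≤
        C * √(VS S n * Real.log (Real.log (VS S n)))) := by
  obtain ⟨C1, hC1, w1⟩ := hW
  obtain ⟨C2, hC2, w2⟩ := hL
  refine ⟨max C1 (C2 + 1), fun S hS => ?_⟩
  filter_upwards [w1 S hS, w2 S hS, floor_ae hα] with β w1 w2 w3 hβ B
  obtain ⟨P, hP⟩ := eventually_atTop.1 (w3 hβ ψ hψ B)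
  obtain ⟨e, he⟩ := MB_diff α (g := fun p => B * ψ ^ p) (g' := fun _ => 0) hP S
  constructor
  · filter_upwards [w1 hβ, eventually_ge_atTop P, hS.eventually_ge_atTop 1] with n hn hnP hn1 n' hnn'
    rw [he n hnP, he n' (hnP.trans hnn'), add_sub_add_right_eq_sub]
    refine (hn n' hnn').trans (mul_le_mul_of_nonneg_right (le_max_left _ _) ?_)
    have h3 : VS S n ≤ VS S n' := VS_mono S hnn'
    have := Real.log_nonneg (hn1.trans h3)
    positivity
  · have hl2 : Tendsto (fun n : ℕ => Real.log (VS S n)) atTop atTop :=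
      Real.tendsto_log_atTop.comp hS
    have hl3 : Tendsto (fun n : ℕ => Real.log (Real.log (VS S n))) atTop atTop :=
      Real.tendsto_log_atTop.comp hl2
    filter_upwards [w2 hβ, eventually_ge_atTop P, hS.eventually_ge_atTop (e ^ 2 + 1),
      hl3.eventually_ge_atTop 1] with n hn hn2 hn3 hn4
    rw [he n hn2]
    have h3 : |e| ≤ √(VS S n * Real.log (Real.log (VS S n))) := by
      refine Real.le_sqrt_of_sq_le ?_
      rw [sq_abs]
      nlinarith [sq_nonneg e]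
    have h4 : |(MB α (fun _ => 0) S β n : ℝ) + e - kr α * VS S n| ≤
        |(MB α (fun _ => 0) S β n : ℝ) - kr α * VS S n| + |e| := by
      have : (MB α (fun _ => 0) S β n : ℝ) + e - kr α * VS S n =
        ((MB α (fun _ => 0) S β n : ℝ) - kr α * VS S n) + e := by ring
      rw [this]
      exact abs_add_le _ _
    have h5 := mul_le_mul_of_nonneg_right (le_max_right C1 (C2 + 1)) (Real.sqrt_nonneg
      (VS S n * Real.log (Real.log (VS S n))))
    nlinarith

end Pool.Agent.N176.GW
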