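import Mathlib
import Pool.Agent.N176.OW.All
import Pool.Agent.N176.GW.Stm
import Pool.Agent.N176.GW.BL
import Pool.Agent.N176.GW.WIN
import Pool.Agent.N176.GW.LIL
import Pool.Agent.N176.GW.Fin
import Pool.Agent.N402.GW.LIN
import Pool.Agent.N707.GW.KT
import Pool.Agent.N966.GW.EX
import Pool.Agent.N603.GW.FM
import Pool.Agent.N222.GW.CL
import Pool.Agent.N738.GW.GC
import Pool.Agent.N255.GW.ITM
import Pool.Agent.N564.GW.AGR
import Pool.Agent.N832.GW.LF
import Pool.Agent.N581.GW.TUG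
import Pool.Agent.N170.GW.RB
import Pool.Agent.N116.GW.SM

set_option autoImplicit false

/-!
# The golden base: assembly
-/

namespace Pool.Agent.N176.GW.All

open Pool.Agent.N176.GW

/-- the golden ratio -/
noncomputable abbrev gr : ℝ := Real.goldenRatio

theorem hgr : (1 : ℝ) < gr := Real.one_lt_goldenRatio

theorem g0 : ∃ G : ℝ, ∀ p : ℕ, |(fun _ : ℕ => (0 : ℝ)) p| ≤ G :=
  ⟨0, fun _ => by simp⟩

theorem lf : S_LF := Pool.Agent.N832.GW.lf (Pool.Agent.N136.OW.sv2 Pool.Agent.N75.OW.sg)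
theorem tug : S_TUG := Pool.Agent.N581.GW.tug Pool.Agent.N402.GW.lin lf
theorem rb : S_RB gr (fun _ => 0) := Pool.Agent.N170.GW.rb gr hgr _ g0
theorem kt : S_K gr (fun _ => 0) := Pool.Agent.N707.GW.kt tug _ g0
theorem ex : S_EX gr (fun _ => 0) := Pool.Agent.N966.GW.ex gr hgr _ kt rb
theorem sm : S_SM gr (fun _ => 0) := Pool.Agent.N116.GW.sm gr hgr _ kt rb
theorem bl : S_BL gr (fun _ => 0) := Pool.Agent.N176.GW.BL.bl hgr ex sm
theorem fm : S_FM gr := Pool.Agent.N603.GW.fm Pool.Agent.N176.OW.All.fw gr hgr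
theorem cl : S_CL gr (fun _ => 0) := Pool.Agent.N222.GW.cl gr hgr _ g0
theorem gc : S_GC gr (fun _ => 0) := Pool.Agent.N738.GW.gc gr hgr _ fm cl
theorem itm : S_ITM gr := Pool.Agent.N255.GW.itm gr hgr
theorem agr : S_AGR gr (fun _ => 0) := Pool.Agent.N564.GW.agr gr hgr _ g0
theorem win' : S_WIN gr (fun _ => 0) := win hgr itm agr bl ex gc
theorem lil' : S_LIL gr (fun _ => 0) := lil hgr itm agr bl ex gc

end Pool.Agent.N176.GW.All
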